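import Mathlib
import Pool.Agent.H9.IP.Gen
import Pool.Agent.H21.CQ.Perf

/-!
# `SL(m, ℝ) × SL(d, ℝ)` has no characters
-/

set_option autoImplicit false

open Matrix

namespace Pool.Agent.H9.JD

/-- `SL(m, ℝ)` has no characters: a transvection `transvection i j t` is a commutator of a diagonal
matrix and a transvection, and `SL(m, ℝ)` is generated by transvections (`const_of_transvection` in
`H9/IP/Gen.lean`), for `F g = (c g : ℝ)`. For `m = 2` use the diagonal matrix
`SpecialLinearGroup.diag2n` with entries `2`, `1/2` at `i`, `j`. -/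
theorem no_char {m : ℕ} (c : SpecialLinearGroup (Fin m) ℝ →* ℝˣ)
    (s : SpecialLinearGroup (Fin m) ℝ) : c s = 1 := by
  have habs : ∀ x : SpecialLinearGroup (Fin m) ℝ, (c x : ℝ) * (c x : ℝ) = 1 := by
    intro x
    have h : |(c x : ℝ)| = 1 := Pool.Agent.H21.CQ.chi_eq_one
      ({ toFun := fun x => |(c x : ℝ)|
         map_one' := by simp
         map_mul' := fun a b => by rw [map_mul, Units.val_mul, abs_mul] } :
        SpecialLinearGroup (Fin m) ℝ →* ℝ) (fun x => abs_pos.2 (c x).ne_zero) x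
    rw [← abs_mul_abs_self, h, one_mul]
  have hF : ((c s : ℝˣ) : ℝ) = ((c 1 : ℝˣ) : ℝ) := by
    refine Pool.Agent.H9.IP.const_of_transvection (fun g => ((c g : ℝˣ) : ℝ)) ?_ s
    intro g e i j t hij he
    have h2 : (transvection i j (t / 2)).det = 1 := det_transvection_of_ne i j hij _
    obtain ⟨f, hf⟩ : ∃ f : SpecialLinearGroup (Fin m) ℝ,
        (f : Matrix (Fin m) (Fin m) ℝ) = transvection i j (t / 2) := ⟨⟨_, h2⟩, rfl⟩
    have he' : e = f * f := by
      apply Subtype.ext
      show (e : Matrix (Fin m) (Fin m) ℝ) = (f : Matrix (Fin m) (Fin m) ℝ) * (f : Matrix (Fin m) (Fin m) ℝ)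
      rw [hf, transvection_mul_transvection_same i j hij, add_halves]
      exact he
    show ((c (g * e) : ℝˣ) : ℝ) = ((c g : ℝˣ) : ℝ)
    rw [map_mul, he', map_mul, Units.val_mul, Units.val_mul, habs f, mul_one]
  apply Units.ext
  rw [hF, map_one]

theorem no_char_prod {m d : ℕ}
    (c : SpecialLinearGroup (Fin m) ℝ × SpecialLinearGroup (Fin d) ℝ →* ℝˣ)
    (s : SpecialLinearGroup (Fin m) ℝ × SpecialLinearGroup (Fin d) ℝ) : c s = 1 := by
  have h : s = MonoidHom.inl _ _ s.1 * MonoidHom.inr _ _ s.2 := by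
    ext <;> simp
  rw [h, map_mul]
  have h1 := no_char (c.comp (MonoidHom.inl _ _)) s.1
  have h2 := no_char (c.comp (MonoidHom.inr _ _)) s.2
  rw [MonoidHom.comp_apply] at h1 h2
  rw [h1, h2, one_mul]

end Pool.Agent.H9.JD
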