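import Mathlib
import Pool.Agent.H9.IQ.Sub

/-!
# From an `SL(d)`-invariant polynomial to one with a weight
-/

set_option autoImplicit false

open MvPolynomial Matrix

namespace Pool.Agent.H9.JD

/-- the value at an `n × d` matrix -/
noncomputable def val {n d : ℕ} (v : Matrix (Fin n) (Fin d) ℝ)
    (f : MvPolynomial (Fin n × Fin d) ℝ) : ℝ :=
  eval (fun q => v q.1 q.2) f

theorem val_smul_hom {n d : ℕ} (e : ℕ) (f : MvPolynomial (Fin n × Fin d) ℝ)
    (hf : f.IsHomogeneous e) (t : ℝ) (v : Matrix (Fin n) (Fin d) ℝ) :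
    val (t • v) f = t ^ e * val v f := by
  unfold val
  rw [eval_eq, eval_eq, Finset.mul_sum]
  refine Finset.sum_congr rfl fun m hm => ?_
  have hdeg : ∑ i ∈ m.support, m i = e := by
    have := hf (mem_support_iff.1 hm)
    rw [← this, Finsupp.weight_apply, Finsupp.sum]
    simp
  have : ∏ i ∈ m.support, ((t • v) i.1 i.2) ^ m i =
      t ^ e * ∏ i ∈ m.support, (v i.1 i.2) ^ m i := by
    rw [← hdeg, ← Finset.prod_pow_eq_pow_sum, ← Finset.prod_mul_distrib]
    refine Finset.prod_congr rfl fun i _ => ?_
    rw [Matrix.smul_apply, smul_eq_mul, mul_pow]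
  rw [this]
  ring

theorem val_smul_sum {n d : ℕ} (f : MvPolynomial (Fin n × Fin d) ℝ) (t : ℝ)
    (v : Matrix (Fin n) (Fin d) ℝ) :
    val (t • v) f =
      ∑ e ∈ Finset.range (f.totalDegree + 1), t ^ e * val v (homogeneousComponent e f) := by
  conv_lhs => rw [← sum_homogeneousComponent f]
  have : val (t • v) (∑ i ∈ Finset.range (f.totalDegree + 1), homogeneousComponent i f) =
      ∑ i ∈ Finset.range (f.totalDegree + 1), val (t • v) (homogeneousComponent i f) := by
    unfold val
    rw [map_sum]
  rw [this]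
  exact Finset.sum_congr rfl fun e _ =>
    val_smul_hom e _ (homogeneousComponent_isHomogeneous e f) t v

/-- values of the homogeneous components agree when the values of `f` agree on the two lines -/
theorem comp_inv {n d : ℕ} (f : MvPolynomial (Fin n × Fin d) ℝ)
    (v w : Matrix (Fin n) (Fin d) ℝ) (h : ∀ t : ℝ, val (t • v) f = val (t • w) f) (e : ℕ) :
    val v (homogeneousComponent e f) = val w (homogeneousComponent e f) := by
  by_cases he : e < f.totalDegree + 1
  · let p : Matrix (Fin n) (Fin d) ℝ → Polynomial ℝ := fun u =>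
      ∑ i ∈ Finset.range (f.totalDegree + 1),
        Polynomial.monomial i (val u (homogeneousComponent i f))
    have hp : ∀ u t, (p u).eval t = val (t • u) f := by
      intro u t
      rw [val_smul_sum]
      simp only [p, Polynomial.eval_finsetSum, Polynomial.eval_monomial]
      exact Finset.sum_congr rfl fun i _ => mul_comm _ _
    have hpp : p v = p w := by
      apply Polynomial.funext
      intro t
      rw [hp, hp, h]
    have hc : ∀ u, (p u).coeff e = val u (homogeneousComponent e f) := by
      intro u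
      simp only [p, Polynomial.finsetSum_coeff, Polynomial.coeff_monomial]
      rw [Finset.sum_ite_eq' (Finset.range (f.totalDegree + 1)) e, if_pos (Finset.mem_range.2 he)]
    rw [← hc, ← hc, hpp]
  · have : homogeneousComponent e f = 0 := homogeneousComponent_eq_zero e f (by omega)
    rw [this]
    simp [val]

theorem exists_comp {n d : ℕ} (f : MvPolynomial (Fin n × Fin d) ℝ) (hf : ∀ a : ℝ, f ≠ C a) :
    ∃ e, 0 < e ∧ homogeneousComponent e f ≠ 0 := by
  by_contra hcon
  push Not at hcon
  apply hf (coeff 0 f)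
  conv_lhs => rw [← sum_homogeneousComponent f]
  rw [Finset.sum_range_succ', homogeneousComponent_zero, Finset.sum_eq_zero, zero_add]
  intro i _
  exact hcon (i + 1) (Nat.succ_pos i)

/-- the value on the line `v * B + t • v` as a polynomial in `t` -/
theorem line_poly {n d : ℕ} (P : MvPolynomial (Fin n × Fin d) ℝ)
    (v u : Matrix (Fin n) (Fin d) ℝ) :
    ∃ p : Polynomial ℝ, ∀ t : ℝ, p.eval t = val (u + t • v) P := by
  refine ⟨aeval (fun q : Fin n × Fin d =>
    (Polynomial.C (u q.1 q.2) + Polynomial.X * Polynomial.C (v q.1 q.2) : Polynomial ℝ)) P,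
    fun t => ?_⟩
  unfold val
  have : (fun q : Fin n × Fin d => (u + t • v) q.1 q.2) =
      fun q => Polynomial.evalRingHom t
        (Polynomial.C (u q.1 q.2) + Polynomial.X * Polynomial.C (v q.1 q.2)) := by
    funext q
    simp only [Matrix.add_apply, Matrix.smul_apply, smul_eq_mul, Polynomial.coe_evalRingHom,
      Polynomial.eval_add, Polynomial.eval_mul, Polynomial.eval_C, Polynomial.eval_X]
  rw [this]
  induction P using MvPolynomial.induction_on with
  | C a => simp
  | add p q hp hq => rw [map_add, map_add, Polynomial.eval_add, hp, hq]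
  | mul_X p i hp =>
    rw [map_mul, map_mul, Polynomial.eval_mul, hp, aeval_X, eval_X]
    rfl

/-- Proof. (a) `f` is not constant, so its homogeneous component `f_e` of some degree `e ≥ 1` is
not zero; it is also invariant (`f(t • w) = ∑ t^e f_e(w)` for all `t`, compare the polynomials in `t`
for `w = a v B` and `w = v`). (b) `P = f_e ^ d`, of degree `e * d`. For `t > 0`, `t = r ^ d`:
`diag(t, 1, ..., 1) = r • B'` with `B' ∈ SL(d, ℝ)`, so `P(v * diag(t, 1, ..., 1)) = t ^ e * P v`; both
sides are polynomials in `t`, so this holds for all real `t`. (c) For `det B ≠ 0` write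
`B = B₁ * diag(det B, 1, ..., 1)`, `B₁ ∈ SL(d, ℝ)`. For `det B = 0` use `B + t • 1`, `t → 0` (or
polynomials in `t`). Put `k = e`. -/
theorem weight_of_invariant {n d : ℕ} (hd : 0 < d) {S : Type} (ρ : S → Matrix (Fin n) (Fin n) ℝ)
    (f : MvPolynomial (Fin n × Fin d) ℝ) (hf : ∀ a : ℝ, f ≠ C a)
    (h1 : ∀ (s : S) (v : Matrix (Fin n) (Fin d) ℝ), val (ρ s * v) f = val v f)
    (h2 : ∀ (B : SpecialLinearGroup (Fin d) ℝ) (v : Matrix (Fin n) (Fin d) ℝ),
      val (v * (B : Matrix (Fin d) (Fin d) ℝ)) f = val v f) :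
    ∃ (k : ℕ) (P : MvPolynomial (Fin n × Fin d) ℝ), 0 < k ∧ P ≠ 0 ∧
      (∀ (B : Matrix (Fin d) (Fin d) ℝ) (v : Matrix (Fin n) (Fin d) ℝ),
        val (v * B) P = B.det ^ k * val v P) ∧
      ∀ (s : S) (v : Matrix (Fin n) (Fin d) ℝ), val (ρ s * v) P = val v P := by
  obtain ⟨e, he, hne⟩ := exists_comp f hf
  set g := homogeneousComponent e f with hg
  have hhom : g.IsHomogeneous e := homogeneousComponent_isHomogeneous e f
  have g1 : ∀ (s : S) (v : Matrix (Fin n) (Fin d) ℝ), val (ρ s * v) g = val v g := by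
    intro s v
    refine comp_inv f _ _ (fun t => ?_) e
    rw [← Matrix.mul_smul, h1]
  have g2 : ∀ (B : SpecialLinearGroup (Fin d) ℝ) (v : Matrix (Fin n) (Fin d) ℝ),
      val (v * (B : Matrix (Fin d) (Fin d) ℝ)) g = val v g := by
    intro B v
    refine comp_inv f _ _ (fun t => ?_) e
    rw [← Matrix.smul_mul, h2]
  have hpow : ∀ (v : Matrix (Fin n) (Fin d) ℝ), val v (g ^ d) = (val v g) ^ d := by
    intro v
    unfold val
    rw [map_pow]
  -- positive determinant
  have hpos : ∀ (B : Matrix (Fin d) (Fin d) ℝ) (v : Matrix (Fin n) (Fin d) ℝ), 0 < B.det →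
      val (v * B) (g ^ d) = B.det ^ e * val v (g ^ d) := by
    intro B v hB
    obtain ⟨r, hr, hrd⟩ : ∃ r : ℝ, 0 < r ∧ r ^ d = B.det := by
      refine ⟨B.det ^ ((d : ℝ)⁻¹), Real.rpow_pos_of_pos hB _, ?_⟩
      exact Real.rpow_inv_natCast_pow hB.le hd.ne'
    have hdet : (r⁻¹ • B).det = 1 := by
      rw [Matrix.det_smul, Fintype.card_fin, inv_pow, hrd, inv_mul_cancel₀ hB.ne']
    have hBB : B = r • (r⁻¹ • B) := by
      rw [smul_smul, mul_inv_cancel₀ hr.ne', one_smul]
    have h3 := g2 ⟨r⁻¹ • B, hdet⟩ v
    simp only at h3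
    rw [hpow, hpow]
    conv_lhs => rw [hBB, Matrix.mul_smul, val_smul_hom e g hhom, h3]
    rw [mul_pow, ← pow_mul, mul_comm e d, pow_mul, hrd]
  refine ⟨e, g ^ d, he, pow_ne_zero _ hne, ?_, ?_⟩
  · intro B v
    obtain ⟨p, hp⟩ := line_poly (g ^ d) v (v * B)
    have hq : ∀ t : ℝ, ((-B).charpoly ^ e * Polynomial.C (val v (g ^ d))).eval t =
        (B + t • (1 : Matrix (Fin d) (Fin d) ℝ)).det ^ e * val v (g ^ d) := by
      intro t
      rw [Polynomial.eval_mul, Polynomial.eval_pow, Polynomial.eval_C, Matrix.eval_charpoly]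
      congr 3
      ext i j
      simp only [Matrix.scalar_apply, Matrix.sub_apply, Matrix.neg_apply, Matrix.add_apply,
        Matrix.smul_apply, Matrix.diagonal_apply, Matrix.one_apply, smul_eq_mul]
      split_ifs <;> ring
    have htend : Filter.Tendsto (fun t : ℝ => ((-B).charpoly).eval t) Filter.atTop
        Filter.atTop := by
      apply Polynomial.tendsto_atTop_of_leadingCoeff_nonneg
      · rw [Matrix.charpoly_degree_eq_dim, Fintype.card_fin]
        exact_mod_cast hd
      · rw [(Matrix.charpoly_monic _).leadingCoeff]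
        exact zero_le_one
    have hev : ∀ᶠ t : ℝ in Filter.atTop, p.eval t =
        ((-B).charpoly ^ e * Polynomial.C (val v (g ^ d))).eval t := by
      filter_upwards [htend.eventually_gt_atTop 0] with t ht
      rw [hq t, hp t]
      have hdt : 0 < (B + t • (1 : Matrix (Fin d) (Fin d) ℝ)).det := by
        have h5 : (-B).charpoly.eval t = (B + t • (1 : Matrix (Fin d) (Fin d) ℝ)).det := by
          rw [Matrix.eval_charpoly]
          congr 1
          ext i j
          simp only [Matrix.scalar_apply, Matrix.sub_apply, Matrix.neg_apply, Matrix.add_apply,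
            Matrix.smul_apply, Matrix.diagonal_apply, Matrix.one_apply, smul_eq_mul]
          split_ifs <;> ring
        rw [← h5]
        exact ht
      rw [← hpos _ v hdt, Matrix.mul_add, Matrix.mul_smul, Matrix.mul_one]
    have hinf : Set.Infinite {t : ℝ | p.eval t =
        ((-B).charpoly ^ e * Polynomial.C (val v (g ^ d))).eval t} := by
      obtain ⟨T, hT⟩ := Filter.eventually_atTop.1 hev
      exact (Set.Ici_infinite T).mono fun t ht => hT t ht
    have heq := Polynomial.eq_of_infinite_eval_eq _ _ hinf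
    have h0 := hp 0
    rw [heq, hq 0] at h0
    simpa using h0.symm
  · intro s v
    rw [hpow, hpow, g1]

end Pool.Agent.H9.JD
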