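import Mathlib
import Pool.Agent.H9.JD.Wt

/-!
# Relative invariants of one vector and of `n - 1` vectors
-/

set_option autoImplicit false

open MvPolynomial Matrix

namespace Pool.Agent.H9.JD


/-- the matrix with first column `x` and then the columns of `v` -/
private def mt {d : ℕ} (x : Fin (d + 1) → ℝ) (v : Matrix (Fin (d + 1)) (Fin d) ℝ) :
    Matrix (Fin (d + 1)) (Fin (d + 1)) ℝ :=
  Matrix.of fun i => Fin.cons (x i) (v i)

/-- the cross product -/
private noncomputable def cr {d : ℕ} (v : Matrix (Fin (d + 1)) (Fin d) ℝ) (i : Fin (d + 1)) : ℝ :=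
  (-1) ^ (i : ℕ) * (v.submatrix i.succAbove id).det

private theorem det_mt {d : ℕ} (x : Fin (d + 1) → ℝ) (v : Matrix (Fin (d + 1)) (Fin d) ℝ) :
    (mt x v).det = ∑ i, x i * cr v i := by
  rw [Matrix.det_succ_column_zero]
  refine Finset.sum_congr rfl fun i _ => ?_
  have h1 : (mt x v).submatrix i.succAbove Fin.succ = v.submatrix i.succAbove id := by
    ext a b
    rfl
  have h2 : mt x v i 0 = x i := rfl
  rw [h1, h2, cr]
  ring

private theorem mul_mt {d : ℕ} (A : Matrix (Fin (d + 1)) (Fin (d + 1)) ℝ) (x : Fin (d + 1) → ℝ)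
    (v : Matrix (Fin (d + 1)) (Fin d) ℝ) : A * mt x v = mt (A *ᵥ x) (A * v) := by
  ext i j
  refine Fin.cases ?_ (fun b => ?_) j
  · rw [Matrix.mul_apply]
    rfl
  · rw [Matrix.mul_apply]
    rfl

private theorem cr_mul_right {d : ℕ} (v : Matrix (Fin (d + 1)) (Fin d) ℝ)
    (B : Matrix (Fin d) (Fin d) ℝ) : cr (v * B) = B.det • cr v := by
  funext i
  have h1 : (v * B).submatrix i.succAbove id = v.submatrix i.succAbove id * B := by
    ext a b
    rfl
  rw [Pi.smul_apply, smul_eq_mul, cr, cr, h1, Matrix.det_mul]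
  ring

private theorem cr_mul_left {d : ℕ} (A : Matrix (Fin (d + 1)) (Fin (d + 1)) ℝ) (hA : A.det = 1)
    (v : Matrix (Fin (d + 1)) (Fin d) ℝ) : Aᵀ *ᵥ cr (A * v) = cr v := by
  have h1 : ∀ y : Fin (d + 1) → ℝ, ∑ i, y i * (Aᵀ *ᵥ cr (A * v)) i = ∑ i, y i * cr v i := by
    intro y
    have h2 : ∑ i, y i * (Aᵀ *ᵥ cr (A * v)) i = (A *ᵥ y) ⬝ᵥ cr (A * v) := by
      have h3 : y ⬝ᵥ (Aᵀ *ᵥ cr (A * v)) = (A *ᵥ y) ⬝ᵥ cr (A * v) := by
        rw [Matrix.dotProduct_mulVec, Matrix.vecMul_transpose]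
      exact h3
    rw [h2]
    have h4 : (A *ᵥ y) ⬝ᵥ cr (A * v) = (mt (A *ᵥ y) (A * v)).det := (det_mt _ _).symm
    rw [h4, ← mul_mt, Matrix.det_mul, hA, one_mul, det_mt]
  funext i
  have h5 := h1 (Pi.single i 1)
  simpa [Pi.single_apply] using h5

/-- the cross product of a special matrix -/
private theorem cr_special {d : ℕ} (s : Fin d → ℝ) :
    cr (Matrix.of (Fin.cons (fun b => -s b) fun a b => if a = b then (1 : ℝ) else 0)) =
      Fin.cons 1 s := by
  obtain ⟨v, hv⟩ : ∃ v : Matrix (Fin (d + 1)) (Fin d) ℝ,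
    v = Matrix.of (Fin.cons (fun b => -s b) fun a b => if a = b then (1 : ℝ) else 0) := ⟨_, rfl⟩
  rw [← hv]
  have h0 : cr v 0 = 1 := by
    have h1 : v.submatrix (Fin.succAbove 0) id = 1 := by
      ext a b
      rw [hv, Matrix.submatrix_apply, Fin.succAbove_zero, Matrix.of_apply, Fin.cons_succ,
        Matrix.one_apply]
      rfl
    rw [cr, h1, Matrix.det_one]
    simp
  funext i
  refine Fin.cases ?_ (fun b => ?_) i
  · rw [h0]
    rfl
  · have h2 : (mt (fun i => v i b) v).det = 0 := by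
      refine Matrix.det_zero_of_column_eq (i := 0) (j := b.succ) (Fin.succ_ne_zero b).symm ?_
      intro k
      rfl
    rw [det_mt, Fin.sum_univ_succ, h0] at h2
    have h3 : ∀ a : Fin d, v a.succ b * cr v a.succ = if a = b then cr v a.succ else 0 := by
      intro a
      rw [hv, Matrix.of_apply, Fin.cons_succ, ← hv]
      split_ifs <;> simp
    rw [Finset.sum_congr rfl fun a _ => h3 a, Finset.sum_ite_eq' Finset.univ b] at h2
    have h4 : v 0 b = -s b := by
      rw [hv]
      rfl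
    rw [h4] at h2
    rw [Fin.cons_succ]
    simp only [Finset.mem_univ, if_true, mul_one] at h2
    linarith

private theorem eval_smul_hom {n : ℕ} {k : ℕ} (p : MvPolynomial (Fin n) ℝ)
    (hp : p.IsHomogeneous k) (t : ℝ) (y : Fin n → ℝ) :
    eval (t • y) p = t ^ k * eval y p := by
  rw [eval_eq, eval_eq, Finset.mul_sum]
  refine Finset.sum_congr rfl fun m hm => ?_
  have hdeg : ∑ i ∈ m.support, m i = k := by
    have := hp (mem_support_iff.1 hm)
    rw [← this, Finsupp.weight_apply, Finsupp.sum]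
    simp
  have : ∏ i ∈ m.support, ((t • y) i) ^ m i = t ^ k * ∏ i ∈ m.support, (y i) ^ m i := by
    rw [← hdeg, ← Finset.prod_pow_eq_pow_sum, ← Finset.prod_mul_distrib]
    refine Finset.prod_congr rfl fun i _ => ?_
    rw [Pi.smul_apply, smul_eq_mul, mul_pow]
  rw [this]
  ring

/-- the cross product as a polynomial -/
private noncomputable def cP {d : ℕ} (i : Fin (d + 1)) : MvPolynomial (Fin (d + 1) × Fin d) ℝ :=
  C ((-1) ^ (i : ℕ)) *
    (Matrix.of fun a b => (X (i.succAbove a, b) : MvPolynomial (Fin (d + 1) × Fin d) ℝ)).det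

private theorem val_cP {d : ℕ} (v : Matrix (Fin (d + 1)) (Fin d) ℝ) (i : Fin (d + 1)) :
    val v (cP i) = cr v i := by
  unfold val cP cr
  rw [map_mul, eval_C, RingHom.map_det]
  congr 2
  ext a b
  rw [RingHom.mapMatrix_apply, Matrix.map_apply, Matrix.of_apply, eval_X]
  rfl

/-- one vector: `P = rename (fun i => (i, 0)) p` -/
theorem one_of_pol {n k : ℕ} (p : MvPolynomial (Fin n) ℝ) (hp0 : p ≠ 0) (hp : p.IsHomogeneous k)
    {S : Type} (A : S → Matrix (Fin n) (Fin n) ℝ)
    (hinv : ∀ (s : S) (y : Fin n → ℝ), eval (A s *ᵥ y) p = eval y p) :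
    ∃ P : MvPolynomial (Fin n × Fin 1) ℝ, P ≠ 0 ∧
      (∀ (B : Matrix (Fin 1) (Fin 1) ℝ) (v : Matrix (Fin n) (Fin 1) ℝ),
        val (v * B) P = B.det ^ k * val v P) ∧
      ∀ (s : S) (v : Matrix (Fin n) (Fin 1) ℝ), val (A s * v) P = val v P := by
  have hval : ∀ v : Matrix (Fin n) (Fin 1) ℝ,
      val v (rename (fun i => (i, (0 : Fin 1))) p) = eval (fun i => v i 0) p := by
    intro v
    unfold val
    rw [eval_rename]
    rfl
  refine ⟨rename (fun i => (i, (0 : Fin 1))) p, ?_, ?_, ?_⟩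
  · intro h
    apply hp0
    have hinj : Function.Injective (fun i : Fin n => (i, (0 : Fin 1))) :=
      fun a b hab => (Prod.mk.inj hab).1
    exact rename_injective _ hinj (by rw [h, map_zero])
  · intro B v
    have h1 : (fun i => (v * B) i 0) = B.det • fun i => v i 0 := by
      funext i
      rw [Matrix.mul_apply, Fin.sum_univ_one, Matrix.det_fin_one, Pi.smul_apply, smul_eq_mul,
        mul_comm]
    rw [hval, hval, h1, eval_smul_hom p hp]
  · intro s v
    have h1 : (fun i => (A s * v) i 0) = A s *ᵥ fun i => v i 0 := by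
      funext i
      rfl
    rw [hval, hval, h1, hinv s]

/-- `n - 1` vectors: `P(v) = p(w(v))` where `w(v)` is the cross product:
`det [x, v_1, ..., v_d] = ∑ i, x i * w(v) i` for all `x`, `n = d + 1`. One has
`w(v B) = det B • w(v)`, `w(A v) = (A⁻¹)ᵀ w(v)` if `det A = 1`; and every `y ≠ 0` is some `w(v)`
(or: `w(g v) = det(g) • (g⁻¹)ᵀ w(v)` for invertible `g`). -/
theorem top_of_dual {d k : ℕ} (hk : 0 < k) (p : MvPolynomial (Fin (d + 1)) ℝ) (hp0 : p ≠ 0)
    (hp : p.IsHomogeneous k) {S : Type} (A : S → Matrix (Fin (d + 1)) (Fin (d + 1)) ℝ)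
    (hA : ∀ s, (A s).det = 1)
    (hinv : ∀ (s : S) (y : Fin (d + 1) → ℝ), eval ((A s)ᵀ *ᵥ y) p = eval y p) :
    ∃ P : MvPolynomial (Fin (d + 1) × Fin d) ℝ, P ≠ 0 ∧
      (∀ (B : Matrix (Fin d) (Fin d) ℝ) (v : Matrix (Fin (d + 1)) (Fin d) ℝ),
        val (v * B) P = B.det ^ k * val v P) ∧
      ∀ (s : S) (v : Matrix (Fin (d + 1)) (Fin d) ℝ), val (A s * v) P = val v P := by
  obtain ⟨P, hP⟩ : ∃ P : MvPolynomial (Fin (d + 1) × Fin d) ℝ, P = aeval cP p := ⟨_, rfl⟩
  have hval : ∀ v : Matrix (Fin (d + 1)) (Fin d) ℝ, val v P = eval (cr v) p := by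
    intro v
    have h1 : val v P = eval (fun i => val v (cP i)) p := by
      unfold val
      rw [hP, aeval_def, eval₂_eq', MvPolynomial.eval_eq' (fun i => _) p, map_sum]
      refine Finset.sum_congr rfl fun m _ => ?_
      rw [map_mul, map_prod, MvPolynomial.algebraMap_eq, eval_C]
      congr 1
      exact Finset.prod_congr rfl fun i _ => map_pow _ _ _
    rw [h1]
    congr 1
    congr 1
    funext i
    exact val_cP v i
  refine ⟨P, ?_, ?_, ?_⟩
  · intro hP0
    have h1 : p * X 0 ≠ 0 := mul_ne_zero hp0 (X_ne_zero 0)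
    apply h1
    refine MvPolynomial.funext fun y => ?_
    rw [map_mul, eval_X, map_zero]
    by_cases hy : y 0 = 0
    · rw [hy, mul_zero]
    · have h2 := hval (Matrix.of (Fin.cons (fun b => -(y b.succ / y 0))
        fun a b => if a = b then (1 : ℝ) else 0))
      rw [cr_special (fun b => y b.succ / y 0), hP0] at h2
      have h3 : (Fin.cons 1 (fun b => y b.succ / y 0) : Fin (d + 1) → ℝ) = (y 0)⁻¹ • y := by
        funext i
        refine Fin.cases ?_ (fun b => ?_) i
        · rw [Fin.cons_zero, Pi.smul_apply, smul_eq_mul, inv_mul_cancel₀ hy]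
        · rw [Fin.cons_succ, Pi.smul_apply, smul_eq_mul]
          ring
      rw [h3, eval_smul_hom p hp] at h2
      have h4 : val (Matrix.of (Fin.cons (fun b => -(y b.succ / y 0))
        fun a b => if a = b then (1 : ℝ) else 0)) (0 : MvPolynomial (Fin (d + 1) × Fin d) ℝ) = 0 := by
        unfold val
        rw [map_zero]
      rw [h4] at h2
      rcases mul_eq_zero.1 h2.symm with h5 | h5
      · exact absurd h5 (pow_ne_zero _ (inv_ne_zero hy))
      · rw [h5, zero_mul]
  · intro B v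
    rw [hval, hval, cr_mul_right, eval_smul_hom p hp]
  · intro s v
    rw [hval, hval, ← hinv s (cr (A s * v)), cr_mul_left (A s) (hA s) v]

end Pool.Agent.H9.JD
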