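import Mathlib

/-!
# Algebraic dependence modulo `δ - 1`
-/

set_option autoImplicit false

open MvPolynomial

namespace Pool.Agent.H9.JD

private theorem not_indep {K : Type} [Field K] {σ κ : Type} [Fintype σ] [Fintype κ]
    (h : Fintype.card σ < Fintype.card κ) (x : κ → MvPolynomial σ K) :
    ¬ AlgebraicIndependent K x := by
  intro hx
  have h1 := hx.cardinalMk_le_trdeg
  rw [MvPolynomial.trdeg_of_isDomain] at h1
  rw [Cardinal.mk_fintype, Cardinal.mk_fintype, Cardinal.lift_natCast, Nat.cast_le] at h1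
  omega

/-- `N` polynomials in at most `N` variables are dependent modulo `δ - 1`.

Proof. The `N + 1` elements `F i`, `δ` are algebraically dependent over `K` (transcendence degree:
`MvPolynomial.trdeg_of_isDomain`, `AlgebraicIndependent.lift_cardinalMk_le_trdeg` or
`cardinalMk_le_trdeg`): there is `q ≠ 0` in `Polynomial (MvPolynomial ι K)` with
`q.eval₂ (aeval F) δ = 0`. Write `q = (X - C 1)^k * r` with `r.eval 1 ≠ 0`
(`Polynomial.exists_eq_pow_rootMultiplicity_mul_and_not_dvd`); since `δ - 1 ≠ 0` and the ring is a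
domain, `r.eval₂ (aeval F) δ = 0`. Put `Q = r.eval 1`: `δ - 1` divides
`r.eval₂ _ δ - r.eval₂ _ 1 = - aeval F Q` (`Polynomial.eval₂` / `sub_dvd_eval_sub`). -/
theorem dep {K : Type} [Field K] {σ ι : Type} [Fintype σ] [Fintype ι]
    (h : Fintype.card σ ≤ Fintype.card ι) (F : ι → MvPolynomial σ K) (δ : MvPolynomial σ K)
    (hδ : δ ≠ 1) : ∃ Q : MvPolynomial ι K, Q ≠ 0 ∧ δ - 1 ∣ aeval F Q := by
  have h1 : ¬ AlgebraicIndependent K (fun o : Option ι => Option.elim o δ F) :=
    not_indep (by rw [Fintype.card_option]; omega) _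
  rw [algebraicIndependent_iff] at h1
  push Not at h1
  obtain ⟨p, hp, hp0⟩ := h1
  have hq0 : optionEquivLeft K ι p ≠ 0 := by
    intro h2
    exact hp0 ((map_eq_zero_iff _ (optionEquivLeft K ι).injective).1 h2)
  have hcomp : ∀ p : MvPolynomial (Option ι) K,
      (optionEquivLeft K ι p).eval₂ (aeval F : MvPolynomial ι K →ₐ[K] MvPolynomial σ K).toRingHom δ =
      aeval (fun o : Option ι => Option.elim o δ F) p := by
    intro p
    induction p using MvPolynomial.induction_on with
    | C a =>
      rw [optionEquivLeft_C, Polynomial.eval₂_C, aeval_C]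
      show aeval F (C a) = _
      rw [aeval_C]
    | add f g hf hg =>
      rw [map_add, Polynomial.eval₂_add, hf, hg, map_add]
    | mul_X f o hf =>
      rw [map_mul, Polynomial.eval₂_mul, hf, map_mul, aeval_X]
      cases o with
      | none => rw [optionEquivLeft_X_none, Polynomial.eval₂_X]; rfl
      | some i =>
        rw [optionEquivLeft_X_some, Polynomial.eval₂_C]
        show _ * aeval F (X i) = _
        rw [aeval_X]
        rfl
  obtain ⟨r, hr, hrd⟩ := Polynomial.exists_eq_pow_rootMultiplicity_mul_and_not_dvd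
    (optionEquivLeft K ι p) hq0 1
  have h2 := hcomp p
  rw [hp, hr, Polynomial.eval₂_mul, Polynomial.eval₂_pow, Polynomial.eval₂_sub, Polynomial.eval₂_X,
    Polynomial.eval₂_C] at h2
  have h3 : δ - (aeval F : MvPolynomial ι K →ₐ[K] MvPolynomial σ K).toRingHom 1 ≠ 0 := by
    rw [map_one]
    exact sub_ne_zero.2 hδ
  have h4 := (mul_eq_zero.1 h2).resolve_left (pow_ne_zero _ h3)
  refine ⟨r.eval 1, ?_, ?_⟩
  · intro h5
    exact hrd (Polynomial.dvd_iff_isRoot.2 h5)
  · have h5 := Polynomial.sub_dvd_eval_sub δ 1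
      (r.map (aeval F : MvPolynomial ι K →ₐ[K] MvPolynomial σ K).toRingHom)
    rw [Polynomial.eval_map, h4, Polynomial.eval_map] at h5
    have h6 : r.eval₂ (aeval F : MvPolynomial ι K →ₐ[K] MvPolynomial σ K).toRingHom 1 =
        aeval F (r.eval 1) := by
      have := Polynomial.eval₂_at_apply (p := r)
        (aeval F : MvPolynomial ι K →ₐ[K] MvPolynomial σ K).toRingHom 1
      rw [map_one] at this
      exact this
    rw [h6, zero_sub, dvd_neg] at h5
    exact h5

end Pool.Agent.H9.JD
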