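import Mathlib
import Pool.Agent.H9.JD.Dep

/-!
# Algebraic dependence modulo two relations
-/

set_option autoImplicit false

open MvPolynomial

namespace Pool.Agent.H9.JD

/-- `N` polynomials in at most `N + 1` variables are dependent modulo `δ₁ - 1` and `δ₂ - 1` if
these are relatively prime.

Proof. The `N + 2` elements `F i`, `δ₁`, `δ₂` are algebraically dependent. So there is `q ≠ 0` in
`Polynomial (Polynomial (MvPolynomial ι K))` (variables: outer `t` for `δ₂`, inner `s` for `δ₁`) with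
`q(F, δ₁, δ₂) = 0`. Remove all factors `t - 1` from `q`; then `q₁ = q(t = 1) ≠ 0` and
`δ₂ - 1 ∣ q₁(F, δ₁)`. Write `q₁ = (s - 1)^b * r`, `r(s = 1) ≠ 0`; then
`δ₂ - 1 ∣ (δ₁ - 1)^b * r(F, δ₁)`, so `δ₂ - 1 ∣ r(F, δ₁)` (relatively prime, UFD). Put `Q = r(1)`;
`δ₁ - 1 ∣ r(F, δ₁) - Q(F)`. -/
theorem dep2 {K : Type} [Field K] {σ ι : Type} [Fintype σ] [Fintype ι]
    (h : Fintype.card σ ≤ Fintype.card ι + 1) (F : ι → MvPolynomial σ K)
    (δ₁ δ₂ : MvPolynomial σ K) (h1 : δ₁ ≠ 1) (h2 : δ₂ ≠ 1)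
    (hr : IsRelPrime (δ₁ - 1) (δ₂ - 1)) :
    ∃ Q : MvPolynomial ι K, Q ≠ 0 ∧
      ∃ a b : MvPolynomial σ K, aeval F Q = a * (δ₁ - 1) + b * (δ₂ - 1) := by
  classical
  obtain ⟨Q1, hQ1, hd⟩ := dep (K := K) (σ := σ) (ι := Option ι)
    (by rw [Fintype.card_option]; exact h) (fun o : Option ι => o.elim δ₁ F) δ₂ h2
  obtain ⟨f, hf⟩ : ∃ f : MvPolynomial ι K →+* MvPolynomial σ K, f = (aeval F).toRingHom :=
    ⟨_, rfl⟩
  have hfe : ∀ x, f x = aeval F x := fun x => by rw [hf]; rfl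
  have hev : ∀ p : MvPolynomial (Option ι) K, aeval (fun o : Option ι => o.elim δ₁ F) p =
      (optionEquivLeft K ι p).eval₂ f δ₁ := by
    intro p
    induction p using MvPolynomial.induction_on with
    | C a => rw [optionEquivLeft_C, Polynomial.eval₂_C, hfe, aeval_C, aeval_C]
    | add a b ha hb => rw [map_add, map_add, Polynomial.eval₂_add, ha, hb]
    | mul_X a o ha =>
      rw [map_mul, map_mul, Polynomial.eval₂_mul, ha, aeval_X]
      rcases o with _ | i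
      · rw [optionEquivLeft_X_none, Polynomial.eval₂_X]; rfl
      · rw [optionEquivLeft_X_some, Polynomial.eval₂_C, hfe, aeval_X]; rfl
  rw [hev] at hd
  have hq0 : optionEquivLeft K ι Q1 ≠ 0 := by
    intro h0
    exact hQ1 ((optionEquivLeft K ι).map_eq_zero_iff.1 h0)
  obtain ⟨r, hr1, hr2⟩ := Polynomial.exists_eq_pow_rootMultiplicity_mul_and_not_dvd
    (optionEquivLeft K ι Q1) hq0 1
  rw [hr1, Polynomial.eval₂_mul, Polynomial.eval₂_pow, Polynomial.eval₂_sub, Polynomial.eval₂_X,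
    Polynomial.eval₂_C, map_one] at hd
  have hr' : IsRelPrime (δ₂ - 1) ((δ₁ - 1) ^
      Polynomial.rootMultiplicity 1 (optionEquivLeft K ι Q1)) := hr.symm.pow_right
  obtain ⟨b, hb⟩ := hr'.dvd_of_dvd_mul_left hd
  have h3 : δ₁ - 1 ∣ (r.map f).eval δ₁ - (r.map f).eval 1 := Polynomial.sub_dvd_eval_sub δ₁ 1 _
  have h4 : r.eval₂ f 1 = aeval F (r.eval 1) := by
    rw [← hfe, ← Polynomial.eval₂_hom, map_one]
  rw [Polynomial.eval_map, Polynomial.eval_map, h4] at h3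
  obtain ⟨a, ha⟩ := h3
  refine ⟨r.eval 1, fun h0 => hr2 (Polynomial.dvd_iff_isRoot.2 h0), -a, b, ?_⟩
  calc aeval F (r.eval 1) = r.eval₂ f δ₁ - (r.eval₂ f δ₁ - aeval F (r.eval 1)) := by ring
    _ = (δ₂ - 1) * b - (δ₁ - 1) * a := by rw [ha, hb]
    _ = -a * (δ₁ - 1) + b * (δ₂ - 1) := by ring

end Pool.Agent.H9.JD
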