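import Mathlib

/-!
# Descent of polynomial relations
-/

set_option autoImplicit false

open MvPolynomial

namespace Pool.Agent.H9.JD

private theorem eval_map_sub {K ι S : Type} [Field K] [Group S] (σ : S → K →+* K) (y : S → ι → K)
    (hy : ∀ g s i, σ g (y s i) = y (s * g) i) (P : MvPolynomial ι K)
    (hv : ∀ s, eval (y s) P = 0) (g s : S) : eval (y s) (map (σ g) P - P) = 0 := by
  have h1 : y s = σ g ∘ y (s * g⁻¹) := by
    funext i
    have h2 := hy g (s * g⁻¹) i
    rw [inv_mul_cancel_right] at h2
    exact h2.symm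
  have h3 : eval (y s) (map (σ g) P) = σ g (eval (y (s * g⁻¹)) P) := by
    rw [eval_map, h1]
    have h4 := eval₂_comp_left (σ g) (RingHom.id K) (y (s * g⁻¹)) P
    rw [RingHom.comp_id] at h4
    rw [← h4]
    rfl
  rw [map_sub, h3, hv, hv, map_zero, sub_zero]

/-- If a nonzero polynomial vanishes at all points `y s`, `s ∈ S`, and the field endomorphisms `σ g`
permute these points, then there is one whose coefficients are fixed by all `σ g`.

Proof. Among all nonzero `Q` with `eval (y s) Q = 0` for all `s` take one with the smallest number of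
elements of the support; divide by one of its coefficients, so that `coeff a₀ Q = 1`. For `g` the
polynomial `map (σ g) Q - Q` also vanishes at all `y s` (`eval (y s) (map (σ g) Q) =
σ g (eval (y (s * g⁻¹)) Q)`), its support is contained in that of `Q` and does not contain `a₀`; so it
is zero. -/
theorem descent {K ι S : Type} [Field K] [Group S] (σ : S → K →+* K) (y : S → ι → K)
    (hy : ∀ g s i, σ g (y s i) = y (s * g) i) (Q : MvPolynomial ι K) (hQ : Q ≠ 0)
    (hv : ∀ s, eval (y s) Q = 0) :
    ∃ P : MvPolynomial ι K, P ≠ 0 ∧ (∀ s, eval (y s) P = 0) ∧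
      ∀ g a, σ g (coeff a P) = coeff a P := by
  classical
  have hex : ∃ n : ℕ, ∃ R : MvPolynomial ι K, R ≠ 0 ∧ (∀ s, eval (y s) R = 0) ∧
      R.support.card = n := ⟨_, Q, hQ, hv, rfl⟩
  obtain ⟨R, hR0, hRv, hRc⟩ := Nat.find_spec hex
  have hmin : ∀ T : MvPolynomial ι K, T ≠ 0 → (∀ s, eval (y s) T = 0) →
      R.support.card ≤ T.support.card := by
    intro T hT hTv
    rw [hRc]
    exact Nat.find_min' hex ⟨T, hT, hTv, rfl⟩
  obtain ⟨a₀, ha₀⟩ := ne_zero_iff.mp hR0
  set P : MvPolynomial ι K := C (coeff a₀ R)⁻¹ * R with hPdef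
  have hPa : ∀ a, coeff a P = (coeff a₀ R)⁻¹ * coeff a R := fun a => by
    rw [hPdef, coeff_C_mul]
  have hP1 : coeff a₀ P = 1 := by
    rw [hPa, inv_mul_cancel₀ ha₀]
  have hP0 : P ≠ 0 := by
    intro h
    rw [h, coeff_zero] at hP1
    exact zero_ne_one hP1
  have hPv : ∀ s, eval (y s) P = 0 := by
    intro s
    rw [hPdef, map_mul, hRv, mul_zero]
  have hPs : P.support ⊆ R.support := by
    intro a ha
    rw [mem_support_iff, hPa] at ha
    rw [mem_support_iff]
    exact right_ne_zero_of_mul ha
  refine ⟨P, hP0, hPv, fun g => ?_⟩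
  have hDc : ∀ a, coeff a (map (σ g) P - P) = σ g (coeff a P) - coeff a P := fun a => by
    rw [coeff_sub, coeff_map]
  have hD : map (σ g) P - P = 0 := by
    by_contra hne
    have h1 := hmin _ hne (eval_map_sub σ y hy P hPv g)
    have h2 : (map (σ g) P - P).support ⊂ P.support := by
      rw [Finset.ssubset_iff_of_subset]
      · refine ⟨a₀, ?_, ?_⟩
        · rw [mem_support_iff, hP1]
          exact one_ne_zero
        · rw [notMem_support_iff, hDc, hP1, map_one, sub_self]
      · intro a ha
        rw [mem_support_iff, hDc] at ha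
        rw [mem_support_iff]
        intro h
        apply ha
        rw [h, map_zero, sub_zero]
    have h3 := Finset.card_lt_card h2
    have h4 := Finset.card_le_card hPs
    omega
  intro a
  have h5 := hDc a
  rw [hD, coeff_zero] at h5
  exact (sub_eq_zero.mp h5.symm)

end Pool.Agent.H9.JD
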