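import Mathlib

/-!
# The action `v ↦ ψ(x⁻¹)ᵀ v Bᵀ` on `n × d` matrices
-/

set_option autoImplicit false

open MvPolynomial Matrix

namespace Pool.Agent.H9.JD

/-- the matrix -/
def mt {n : ℕ} (x : SpecialLinearGroup (Fin n) ℝ) : Matrix (Fin n) (Fin n) ℝ := x

theorem mt_one {n : ℕ} : mt (1 : SpecialLinearGroup (Fin n) ℝ) = 1 := rfl

theorem mt_mul {n : ℕ} (x y : SpecialLinearGroup (Fin n) ℝ) : mt (x * y) = mt x * mt y := rfl

/-- the action `v ↦ ψ(x⁻¹)ᵀ v Bᵀ` on `n × d` matrices -/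
noncomputable def rep {m n d : ℕ}
    (ψ : SpecialLinearGroup (Fin m) ℝ →* SpecialLinearGroup (Fin n) ℝ) :
    SpecialLinearGroup (Fin m) ℝ × SpecialLinearGroup (Fin d) ℝ →*
      Matrix (Fin n × Fin d) (Fin n × Fin d) ℝ where
  toFun s := Matrix.of fun p q => mt (ψ s.1⁻¹) q.1 p.1 * mt s.2 p.2 q.2
  map_one' := by
    ext p q
    show mt (ψ (1 : SpecialLinearGroup (Fin m) ℝ)⁻¹) q.1 p.1 *
      mt (1 : SpecialLinearGroup (Fin d) ℝ) p.2 q.2 = _
    rw [inv_one, map_one, mt_one, mt_one, Matrix.one_apply, Matrix.one_apply, Matrix.one_apply]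
    by_cases h : p = q
    · subst h; simp
    · rw [if_neg h]
      by_cases h1 : q.1 = p.1
      · have h2 : ¬ p.2 = q.2 := fun h2 => h (Prod.ext h1.symm h2)
        rw [if_neg h2, mul_zero]
      · rw [if_neg h1, zero_mul]
  map_mul' s t := by
    ext p q
    rw [Matrix.mul_apply]
    show mt (ψ (s.1 * t.1)⁻¹) q.1 p.1 * mt (s.2 * t.2) p.2 q.2 =
      ∑ j : Fin n × Fin d, (mt (ψ s.1⁻¹) j.1 p.1 * mt s.2 p.2 j.2) *
        (mt (ψ t.1⁻¹) q.1 j.1 * mt t.2 j.2 q.2)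
    rw [_root_.mul_inv_rev, map_mul, mt_mul, mt_mul,
      Matrix.mul_apply, Matrix.mul_apply, Finset.sum_mul_sum, Fintype.sum_prod_type]
    refine Finset.sum_congr rfl fun a _ => Finset.sum_congr rfl fun b _ => ?_
    ring

theorem rep_mulVec {m n d : ℕ}
    (ψ : SpecialLinearGroup (Fin m) ℝ →* SpecialLinearGroup (Fin n) ℝ)
    (s : SpecialLinearGroup (Fin m) ℝ × SpecialLinearGroup (Fin d) ℝ)
    (v : Matrix (Fin n) (Fin d) ℝ) :
    rep ψ s *ᵥ (fun q => v q.1 q.2) =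
      fun q => ((mt (ψ s.1⁻¹))ᵀ * v * (mt s.2)ᵀ) q.1 q.2 := by
  funext p
  rw [Matrix.mul_apply, Matrix.mulVec, dotProduct, Fintype.sum_prod_type, Finset.sum_comm]
  refine Finset.sum_congr rfl fun b _ => ?_
  rw [Matrix.mul_apply, Finset.sum_mul]
  refine Finset.sum_congr rfl fun a _ => ?_
  show mt (ψ s.1⁻¹) a p.1 * mt s.2 p.2 b * v a b = mt (ψ s.1⁻¹) a p.1 * v a b * mt s.2 p.2 b
  ring

/-- the determinant of the matrix of the variables -/
noncomputable def dX (K : Type) [Field K] (m : ℕ) : MvPolynomial (Fin m × Fin m) K :=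
  (Matrix.of fun i j : Fin m => (X (i, j) : MvPolynomial (Fin m × Fin m) K)).det

theorem eval_dX {K : Type} [Field K] {m : ℕ} (y : Fin m × Fin m → K) :
    eval y (dX K m) = (Matrix.of fun i j : Fin m => y (i, j)).det := by
  show eval y (Matrix.det _) = _
  rw [RingHom.map_det]
  congr 1
  ext i j
  simp

theorem dX_ne {K : Type} [Field K] {m : ℕ} (hm : 0 < m) : dX K m - 1 ≠ 0 := by
  intro h
  have h1 := eval_dX (K := K) (m := m) 0
  rw [sub_eq_zero.1 h, map_one] at h1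
  have : Nonempty (Fin m) := ⟨⟨0, hm⟩⟩
  have h2 : (Matrix.of fun i j : Fin m => (0 : Fin m × Fin m → K) (i, j)) = 0 := by
    ext i j; rfl
  rw [h2, Matrix.det_zero] at h1
  exact one_ne_zero h1

end Pool.Agent.H9.JD
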