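import Mathlib

/-!
# Polynomials in disjoint sets of variables are relatively prime
-/

set_option autoImplicit false

open MvPolynomial

namespace Pool.Agent.H9.JD

/-- A common divisor has degree zero in every variable (`degreeOf`, `degreeOf_mul_eq`, or `vars`),
so it is a constant. -/
theorem relprime {K : Type} [Field K] {α β : Type} (p : MvPolynomial α K) (q : MvPolynomial β K)
    (hp : p ≠ 0) (hq : q ≠ 0) :
    IsRelPrime (rename (Sum.inl : α → α ⊕ β) p) (rename (Sum.inr : β → α ⊕ β) q) := by
  classical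
  have hi : Function.Injective (Sum.inl : α → α ⊕ β) := Sum.inl_injective
  have hj : Function.Injective (Sum.inr : β → α ⊕ β) := Sum.inr_injective
  have hp' : rename (Sum.inl : α → α ⊕ β) p ≠ 0 := fun h0 =>
    hp (rename_injective _ hi (by rw [h0, map_zero]))
  have hq' : rename (Sum.inr : β → α ⊕ β) q ≠ 0 := fun h0 =>
    hq (rename_injective _ hj (by rw [h0, map_zero]))
  intro c hc1 hc2
  obtain ⟨a, ha⟩ := hc1
  obtain ⟨b, hb⟩ := hc2
  have hc0 : c ≠ 0 := by
    rintro rfl
    rw [zero_mul] at ha
    exact hp' ha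
  have ha0 : a ≠ 0 := by
    rintro rfl
    rw [mul_zero] at ha
    exact hp' ha
  have hb0 : b ≠ 0 := by
    rintro rfl
    rw [mul_zero] at hb
    exact hq' hb
  have hdeg : ∀ i, degreeOf i c = 0 := by
    intro i
    rcases i with i | j
    · have h1 : degreeOf (Sum.inl i) (rename (Sum.inr : β → α ⊕ β) q) = 0 := by
        by_contra hne
        obtain ⟨j, -, hj'⟩ := mem_vars_rename _ _ (mem_vars_iff_degreeOf_ne_zero.2 hne)
        exact absurd hj' (by simp)
      rw [hb, degreeOf_mul_eq hc0 hb0] at h1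
      omega
    · have h1 : degreeOf (Sum.inr j) (rename (Sum.inl : α → α ⊕ β) p) = 0 := by
        by_contra hne
        obtain ⟨i, -, hi'⟩ := mem_vars_rename _ _ (mem_vars_iff_degreeOf_ne_zero.2 hne)
        exact absurd hi' (by simp)
      rw [ha, degreeOf_mul_eq hc0 ha0] at h1
      omega
  have hv : c.vars = ∅ := by
    rw [Finset.eq_empty_iff_forall_notMem]
    intro i hi'
    exact mem_vars_iff_degreeOf_ne_zero.1 hi' (hdeg i)
  have hC := vars_eq_empty_iff_eq_C.1 hv
  have hne : c.coeff 0 ≠ 0 := by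
    intro h0
    rw [h0, C_0] at hC
    exact hc0 hC
  rw [hC]
  exact (IsUnit.mk0 _ hne).map C

end Pool.Agent.H9.JD
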