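import Mathlib
import Pool.Agent.H9.IQ.Sub

/-!
# From invariant rational functions to invariant polynomials
-/

set_option autoImplicit false

open MvPolynomial Matrix

namespace Pool.Agent.H9.JD

open Pool.Agent.H9.IQ (lsub lsub_mul eval_lsub)

private theorem lmul {ι : Type} [Fintype ι] (A : Matrix ι ι ℝ) (p q : MvPolynomial ι ℝ) :
    lsub A (p * q) = lsub A p * lsub A q := by
  unfold lsub
  rw [map_mul]

private theorem lC {ι : Type} [Fintype ι] (A : Matrix ι ι ℝ) (a : ℝ) :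
    lsub A (C a : MvPolynomial ι ℝ) = C a := by
  unfold lsub
  rw [MvPolynomial.algHom_C, MvPolynomial.algebraMap_eq]

private theorem lone {ι : Type} [Fintype ι] [DecidableEq ι] (p : MvPolynomial ι ℝ) :
    lsub (1 : Matrix ι ι ℝ) p = p := by
  refine MvPolynomial.funext fun x => ?_
  rw [eval_lsub, Matrix.one_mulVec]

private theorem linv {ι S : Type} [Fintype ι] [DecidableEq ι] [Group S]
    (ρ : S →* Matrix ι ι ℝ) (g h : S) (hgh : g * h = 1) (p : MvPolynomial ι ℝ) :
    lsub (ρ h) (lsub (ρ g) p) = p := by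
  rw [← lsub_mul, ← map_mul, hgh, map_one, lone]

private theorem lne {ι S : Type} [Fintype ι] [DecidableEq ι] [Group S]
    (ρ : S →* Matrix ι ι ℝ) (g : S) {p : MvPolynomial ι ℝ} (hp : p ≠ 0) :
    lsub (ρ g) p ≠ 0 := by
  intro h
  apply hp
  have h1 := linv ρ g g⁻¹ (mul_inv_cancel g) p
  rw [h] at h1
  rw [← h1]
  unfold lsub
  rw [map_zero]

private theorem inv_of_dvd {ι S : Type} [Fintype ι] [DecidableEq ι] [Group S]
    (ρ : S →* Matrix ι ι ℝ) (hS : ∀ (c : S →* ℝˣ) (s : S), c s = 1) {p : MvPolynomial ι ℝ}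
    (hp : p ≠ 0) (h : ∀ g, p ∣ lsub (ρ g) p) (g : S) : lsub (ρ g) p = p := by
  have h1 : ∀ g, ∃ a : ℝˣ, lsub (ρ g) p = C (a : ℝ) * p := by
    intro g
    have h2 : lsub (ρ g) p ∣ p := by
      obtain ⟨r, hr⟩ := h g⁻¹
      refine ⟨lsub (ρ g) r, ?_⟩
      rw [← lmul, ← hr, linv ρ g⁻¹ g (inv_mul_cancel g)]
    obtain ⟨u, hu⟩ := associated_of_dvd_dvd (h g) h2
    obtain ⟨a, ha, hua⟩ := MvPolynomial.isUnit_iff_eq_C_of_isReduced.1 u.isUnit
    obtain ⟨b, hb⟩ := ha
    refine ⟨b, ?_⟩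
    rw [hb, ← hua, mul_comm]
    exact hu.symm
  choose c hc using h1
  have hmul : ∀ g k, c (g * k) = c g * c k := by
    intro g k
    have h2 : C ((c (g * k) : ℝˣ) : ℝ) * p = C (((c g * c k : ℝˣ)) : ℝ) * p := by
      rw [← hc (g * k), map_mul, lsub_mul, hc g, lmul, lC, hc k, Units.val_mul, C_mul]
      ring
    have h3 := mul_right_cancel₀ hp h2
    have h4 := C_injective _ _ h3
    exact Units.ext h4
  have hone : c 1 = 1 := by
    have h5 := hmul 1 1
    rw [mul_one] at h5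
    exact (mul_eq_left.1 h5.symm)
  have h6 := hS { toFun := c, map_one' := hone, map_mul' := hmul } g
  have h7 : c g = 1 := h6
  rw [hc g, h7, Units.val_one, C_1, one_mul]

/-- If the group `S` has no characters, a nonconstant invariant rational function `p / q` gives a
nonconstant invariant polynomial.

Proof. Divide `p`, `q` by a gcd: WLOG `IsRelPrime p q` (`MvPolynomial ι ℝ` is a UFD; e.g.
`IsFractionRing.num`, `den`, `num_den_reduced`, or `exists_reduced_fraction`), `p ≠ 0`. Then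
`p ∣ lsub (ρ g) p * q`, so `p ∣ lsub (ρ g) p` for all `g`; applying `lsub (ρ g)` to this for `g⁻¹`,
`lsub (ρ g) p ∣ p`. So `lsub (ρ g) p = C (c g) * p` with `c g ≠ 0`, and `c` is a homomorphism
(`lsub_mul`: `lsub (A * B) p = lsub B (lsub A p)`), so `c = 1` and `p` is invariant. The same for
`q`. One of them is not constant. -/
theorem invariant_of_rational {ι S : Type} [Fintype ι] [DecidableEq ι] [Group S]
    (ρ : S →* Matrix ι ι ℝ) (hS : ∀ (c : S →* ℝˣ) (s : S), c s = 1) (p q : MvPolynomial ι ℝ)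
    (hq : q ≠ 0) (h : ∀ g, p * lsub (ρ g) q = lsub (ρ g) p * q) (hpq : ∀ a : ℝ, p ≠ C a * q) :
    ∃ f : MvPolynomial ι ℝ, (∀ g, lsub (ρ g) f = f) ∧ ∀ a : ℝ, f ≠ C a := by
  have hp : p ≠ 0 := by
    intro hp
    apply hpq 0
    rw [hp, C_0, zero_mul]
  obtain ⟨p', q', d, hrel, hdp, hdq⟩ := UniqueFactorizationMonoid.exists_reduced_factors p hp q
  have hd : d ≠ 0 := by
    intro h0
    apply hp
    rw [← hdp, h0, zero_mul]
  have hp' : p' ≠ 0 := by
    intro h0
    apply hp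
    rw [← hdp, h0, mul_zero]
  have hq' : q' ≠ 0 := by
    intro h0
    apply hq
    rw [← hdq, h0, mul_zero]
  have h' : ∀ g, p' * lsub (ρ g) q' = lsub (ρ g) p' * q' := by
    intro g
    have h1 := h g
    rw [← hdp, ← hdq, lmul, lmul] at h1
    have h2 : (d * lsub (ρ g) d) * (p' * lsub (ρ g) q') =
        (d * lsub (ρ g) d) * (lsub (ρ g) p' * q') := by
      calc (d * lsub (ρ g) d) * (p' * lsub (ρ g) q') =
          d * p' * (lsub (ρ g) d * lsub (ρ g) q') := by ring
        _ = lsub (ρ g) d * lsub (ρ g) p' * (d * q') := h1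
        _ = _ := by ring
    exact mul_left_cancel₀ (mul_ne_zero hd (lne ρ g hd)) h2
  have hip : ∀ g, lsub (ρ g) p' = p' := by
    intro g
    refine inv_of_dvd ρ hS hp' (fun g => ?_) g
    have h1 : p' ∣ lsub (ρ g) p' * q' := ⟨_, (h' g).symm⟩
    exact hrel.dvd_of_dvd_mul_right h1
  have hiq : ∀ g, lsub (ρ g) q' = q' := by
    intro g
    refine inv_of_dvd ρ hS hq' (fun g => ?_) g
    have h1 : q' ∣ p' * lsub (ρ g) q' := by
      rw [h' g]
      exact dvd_mul_left _ _
    exact hrel.symm.dvd_of_dvd_mul_left h1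
  by_cases hc : ∃ a : ℝ, p' = C a
  · by_cases hc' : ∃ b : ℝ, q' = C b
    · exfalso
      obtain ⟨a, ha⟩ := hc
      obtain ⟨b, hb⟩ := hc'
      have hb0 : b ≠ 0 := by
        intro h0
        apply hq'
        rw [hb, h0, C_0]
      apply hpq (a / b)
      rw [← hdp, ← hdq, ha, hb]
      have h3 : C (a / b) * (d * C b) = d * (C (a / b) * C b : MvPolynomial ι ℝ) := by ring
      rw [h3, ← C_mul, div_mul_cancel₀ _ hb0]
    · exact ⟨q', hiq, fun a ha => hc' ⟨a, ha⟩⟩
  · exact ⟨p', hip, fun a ha => hc ⟨a, ha⟩⟩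

end Pool.Agent.H9.JD
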