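import Mathlib
import Pool.Agent.H9.JD.Rat2
import Pool.Agent.H9.JD.Ufd
import Pool.Agent.H9.JD.Chr
import Pool.Agent.H9.JD.Wt
import Pool.Agent.H9.JD.Dep2
import Pool.Agent.H9.JD.Rp
import Pool.Agent.H9.JD.Rep

/-!
# Relative invariants from the dimension count
-/

set_option autoImplicit false

open MvPolynomial Matrix

namespace Pool.Agent.H9.JD

open Pool.Agent.H9.IQ (lsub eval_lsub)

theorem eval_pt {K : Type} [Field K] [Algebra ℝ K] {m : ℕ} (x : SpecialLinearGroup (Fin m) ℝ) :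
    eval (fun p : Fin m × Fin m => algebraMap ℝ K (mt x p.1 p.2)) (dX K m) = 1 := by
  rw [eval_dX]
  have h : (Matrix.of fun i j : Fin m => algebraMap ℝ K (mt x (i, j).1 (i, j).2)) =
      (algebraMap ℝ K).mapMatrix (mt x) := by
    ext i j; rfl
  rw [h, ← RingHom.map_det]
  have h2 : (mt x).det = 1 := x.2
  rw [h2, map_one]

theorem inv_of_dim {m n : ℕ}
    (ψ : SpecialLinearGroup (Fin m) ℝ →* SpecialLinearGroup (Fin n) ℝ)
    (F : Fin n → Fin n → MvPolynomial (Fin m × Fin m) ℝ)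
    (hF : ∀ (x : SpecialLinearGroup (Fin m) ℝ) (i j : Fin n),
      (ψ x : Matrix (Fin n) (Fin n) ℝ) i j =
        eval (fun p => (x : Matrix (Fin m) (Fin m) ℝ) p.1 p.2) (F i j))
    (hm : 0 < m) {d : ℕ} (hd : 0 < d) (h : m * m + d * d ≤ n * d + 1) :
    ∃ (k : ℕ) (P : MvPolynomial (Fin n × Fin d) ℝ), 0 < k ∧ P ≠ 0 ∧
      (∀ (B : Matrix (Fin d) (Fin d) ℝ) (v : Matrix (Fin n) (Fin d) ℝ),
        val (v * B) P = B.det ^ k * val v P) ∧
      ∀ (x : SpecialLinearGroup (Fin m) ℝ) (v : Matrix (Fin n) (Fin d) ℝ),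
        val ((ψ x : Matrix (Fin n) (Fin n) ℝ)ᵀ * v) P = val v P := by
  classical
  -- the parameters
  let R : (Fin n × Fin d) → (Fin n × Fin d) →
      MvPolynomial ((Fin m × Fin m) ⊕ (Fin d × Fin d)) ℝ := fun p q =>
    rename Sum.inl (F q.1 p.1) * X (Sum.inr (p.2, q.2))
  let pt : SpecialLinearGroup (Fin m) ℝ × SpecialLinearGroup (Fin d) ℝ →
      ((Fin m × Fin m) ⊕ (Fin d × Fin d)) → ℝ := fun s =>
    Sum.elim (fun p => mt s.1⁻¹ p.1 p.2) (fun p => mt s.2 p.1 p.2)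
  have hR : ∀ s p q, eval (pt s) (R p q) = rep ψ s p q := by
    intro s p q
    show eval (pt s) (rename Sum.inl (F q.1 p.1) * X (Sum.inr (p.2, q.2))) =
      mt (ψ s.1⁻¹) q.1 p.1 * mt s.2 p.2 q.2
    unfold mt
    rw [map_mul, eval_rename, eval_X, hF]
    rfl
  have hdep : ∀ G : (Fin n × Fin d) → MvPolynomial ((Fin m × Fin m) ⊕ (Fin d × Fin d))
      (FractionRing (MvPolynomial (Fin n × Fin d) ℝ)),
      ∃ Q : MvPolynomial (Fin n × Fin d) (FractionRing (MvPolynomial (Fin n × Fin d) ℝ)), Q ≠ 0 ∧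
        ∀ s, eval (fun j => algebraMap ℝ (FractionRing (MvPolynomial (Fin n × Fin d) ℝ)) (pt s j))
          (aeval G Q) = 0 := by
    intro G
    have hrel := relprime (dX (FractionRing (MvPolynomial (Fin n × Fin d) ℝ)) m - 1)
      (dX (FractionRing (MvPolynomial (Fin n × Fin d) ℝ)) d - 1) (dX_ne hm) (dX_ne hd)
    rw [map_sub, map_sub, map_one, map_one] at hrel
    have n1 : rename (Sum.inl : Fin m × Fin m → (Fin m × Fin m) ⊕ (Fin d × Fin d))
        (dX (FractionRing (MvPolynomial (Fin n × Fin d) ℝ)) m) ≠ 1 := by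
      intro h1
      rw [← map_one (rename (Sum.inl : Fin m × Fin m → (Fin m × Fin m) ⊕ (Fin d × Fin d)))] at h1
      exact dX_ne hm (sub_eq_zero.2 (rename_injective _ Sum.inl_injective h1))
    have n2 : rename (Sum.inr : Fin d × Fin d → (Fin m × Fin m) ⊕ (Fin d × Fin d))
        (dX (FractionRing (MvPolynomial (Fin n × Fin d) ℝ)) d) ≠ 1 := by
      intro h1
      rw [← map_one (rename (Sum.inr : Fin d × Fin d → (Fin m × Fin m) ⊕ (Fin d × Fin d)))] at h1
      exact dX_ne hd (sub_eq_zero.2 (rename_injective _ Sum.inr_injective h1))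
    have hcard : Fintype.card ((Fin m × Fin m) ⊕ (Fin d × Fin d)) ≤
        Fintype.card (Fin n × Fin d) + 1 := by
      simp only [Fintype.card_sum, Fintype.card_prod, Fintype.card_fin]
      exact h
    obtain ⟨Q, hQ, a, b, hab⟩ := dep2 hcard G _ _ n1 n2 hrel
    refine ⟨Q, hQ, fun s => ?_⟩
    have e1 : eval (fun j => algebraMap ℝ (FractionRing (MvPolynomial (Fin n × Fin d) ℝ)) (pt s j))
        (rename (Sum.inl : Fin m × Fin m → (Fin m × Fin m) ⊕ (Fin d × Fin d))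
        (dX (FractionRing (MvPolynomial (Fin n × Fin d) ℝ)) m)) = 1 := by
      rw [eval_rename]
      exact eval_pt s.1⁻¹
    have e2 : eval (fun j => algebraMap ℝ (FractionRing (MvPolynomial (Fin n × Fin d) ℝ)) (pt s j))
        (rename (Sum.inr : Fin d × Fin d → (Fin m × Fin m) ⊕ (Fin d × Fin d))
        (dX (FractionRing (MvPolynomial (Fin n × Fin d) ℝ)) d)) = 1 := by
      rw [eval_rename]
      exact eval_pt s.2
    rw [hab, map_add, map_mul, map_mul, map_sub, map_sub, map_one, e1, e2, sub_self, mul_zero,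
      mul_zero, add_zero]
  obtain ⟨p, q, hq, hpq, hne⟩ := rational2 (rep ψ) R pt hR hdep
  obtain ⟨f, hf, hfc⟩ := invariant_of_rational (rep ψ) (fun c s => no_char_prod c s) p q hq hpq hne
  have hinv : ∀ (s : SpecialLinearGroup (Fin m) ℝ × SpecialLinearGroup (Fin d) ℝ)
      (v : Matrix (Fin n) (Fin d) ℝ),
      val ((mt (ψ s.1⁻¹))ᵀ * v * (mt s.2)ᵀ) f = val v f := by
    intro s v
    have h1 := eval_lsub (rep ψ s) f (fun q => v q.1 q.2)
    rw [hf s, rep_mulVec] at h1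
    exact h1.symm
  refine weight_of_invariant hd (fun x : SpecialLinearGroup (Fin m) ℝ =>
    (ψ x : Matrix (Fin n) (Fin n) ℝ)ᵀ) f hfc ?_ ?_
  · intro x v
    have h1 := hinv (x⁻¹, 1) v
    rw [show ((x⁻¹, 1) : SpecialLinearGroup (Fin m) ℝ × SpecialLinearGroup (Fin d) ℝ).1⁻¹ = x from
      inv_inv x, show ((x⁻¹, 1) : SpecialLinearGroup (Fin m) ℝ × SpecialLinearGroup (Fin d) ℝ).2 = 1
      from rfl, mt_one, Matrix.transpose_one, Matrix.mul_one] at h1
    exact h1
  · intro B v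
    have h1 := hinv (1, ⟨(B : Matrix (Fin d) (Fin d) ℝ)ᵀ, by
      rw [Matrix.det_transpose]; exact B.2⟩) v
    rw [show (((1 : SpecialLinearGroup (Fin m) ℝ), (⟨(B : Matrix (Fin d) (Fin d) ℝ)ᵀ, by
      rw [Matrix.det_transpose]; exact B.2⟩ : SpecialLinearGroup (Fin d) ℝ))).1⁻¹ = 1 from
      inv_one, map_one, mt_one, Matrix.transpose_one, Matrix.one_mul] at h1
    exact h1

end Pool.Agent.H9.JD
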