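import Mathlib

/-!
# The symmetric square: polynomial entries, dimension, invariant
-/

set_option autoImplicit false

open MvPolynomial Matrix

namespace Pool.Agent.H9.JD

/-- the entries of `ψ x` are polynomials in the entries of `x`:
`(ψ x *ᵥ e_j)_i = (T⁻¹ (x * T e_j * xᵀ))_i`, a linear functional of `x * T e_j * xᵀ`. -/
theorem sym_poly {m n : ℕ} (ψ : SpecialLinearGroup (Fin m) ℝ →* SpecialLinearGroup (Fin n) ℝ)
    (T : (Fin n → ℝ) →ₗ[ℝ] Matrix (Fin m) (Fin m) ℝ) (hT : Function.Injective T)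
    (hr : ∀ M : Matrix (Fin m) (Fin m) ℝ, M.IsSymm ↔ ∃ v, T v = M)
    (hψ : ∀ (x : SpecialLinearGroup (Fin m) ℝ) (v : Fin n → ℝ),
      T ((ψ x : Matrix (Fin n) (Fin n) ℝ) *ᵥ v) =
        (x : Matrix (Fin m) (Fin m) ℝ) * T v * (x : Matrix (Fin m) (Fin m) ℝ)ᵀ) :
    ∃ F : Fin n → Fin n → MvPolynomial (Fin m × Fin m) ℝ,
      ∀ (x : SpecialLinearGroup (Fin m) ℝ) (i j : Fin n),
        (ψ x : Matrix (Fin n) (Fin n) ℝ) i j =
          eval (fun p => (x : Matrix (Fin m) (Fin m) ℝ) p.1 p.2) (F i j) := by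
  classical
  obtain ⟨L, hL⟩ := LinearMap.exists_leftInverse_of_injective T (LinearMap.ker_eq_bot.mpr hT)
  refine ⟨fun i j => ∑ a, ∑ b, ∑ l, ∑ k,
    C (T (Pi.single j 1) k l * L (Matrix.single a b 1) i) * (X (a, k) * X (b, l)), ?_⟩
  intro x i j
  have h1 : (ψ x : Matrix (Fin n) (Fin n) ℝ) i j =
      L ((x : Matrix (Fin m) (Fin m) ℝ) * T (Pi.single j 1) * (x : Matrix (Fin m) (Fin m) ℝ)ᵀ) i := by
    rw [← hψ, ← LinearMap.comp_apply, hL, LinearMap.id_apply, Matrix.mulVec_single_one]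
    rfl
  have h2 : ∀ M : Matrix (Fin m) (Fin m) ℝ, L M i = ∑ a, ∑ b, M a b * L (Matrix.single a b 1) i := by
    intro M
    conv_lhs => rw [Matrix.matrix_eq_sum_single M]
    rw [map_sum, Finset.sum_apply]
    refine Finset.sum_congr rfl fun a _ => ?_
    rw [map_sum, Finset.sum_apply]
    refine Finset.sum_congr rfl fun b _ => ?_
    have h3 : Matrix.single a b (M a b) = M a b • Matrix.single a b (1 : ℝ) := by
      rw [Matrix.smul_single, smul_eq_mul, mul_one]
    rw [h3, map_smul, Pi.smul_apply, smul_eq_mul]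
  rw [h1, h2, map_sum]
  refine Finset.sum_congr rfl fun a _ => ?_
  rw [map_sum]
  refine Finset.sum_congr rfl fun b _ => ?_
  rw [map_sum, Matrix.mul_apply, Finset.sum_mul]
  refine Finset.sum_congr rfl fun l _ => ?_
  rw [map_sum, Matrix.mul_apply, Finset.sum_mul, Finset.sum_mul]
  refine Finset.sum_congr rfl fun k _ => ?_
  simp only [map_mul, eval_C, eval_X, Matrix.transpose_apply]
  ring

/-- the dimension of the space of symmetric matrices -/
theorem sym_dim {m n : ℕ} (T : (Fin n → ℝ) →ₗ[ℝ] Matrix (Fin m) (Fin m) ℝ)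
    (hT : Function.Injective T) (hr : ∀ M : Matrix (Fin m) (Fin m) ℝ, M.IsSymm ↔ ∃ v, T v = M) :
    2 * n = m * (m + 1) := by
  classical
  let U : (Sym2 (Fin m) → ℝ) →ₗ[ℝ] Matrix (Fin m) (Fin m) ℝ :=
    { toFun := fun f => Matrix.of fun i j => f s(i, j)
      map_add' := fun f g => by ext i j; rfl
      map_smul' := fun c f => by ext i j; rfl }
  have hU : Function.Injective U := by
    intro f g hfg
    funext z
    induction z using Sym2.inductionOn with
    | hf i j => exact congrFun (congrFun hfg i) j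
  have hUr : ∀ M : Matrix (Fin m) (Fin m) ℝ, M.IsSymm ↔ ∃ f, U f = M := by
    intro M
    constructor
    · intro hM
      refine ⟨Sym2.lift ⟨fun i j => M i j, fun i j => (hM.apply j i)⟩, ?_⟩
      ext i j
      rfl
    · rintro ⟨f, rfl⟩
      ext i j
      show f s(j, i) = f s(i, j)
      rw [Sym2.eq_swap]
  have h1 : LinearMap.range T = LinearMap.range U := by
    ext M
    rw [LinearMap.mem_range, LinearMap.mem_range, ← hr, ← hUr]
  have h2 := LinearMap.finrank_range_of_inj hT
  have h3 := LinearMap.finrank_range_of_inj hU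
  rw [h1, h3] at h2
  simp only [Module.finrank_fintype_fun_eq_card, Fintype.card_fin, Sym2.card] at h2
  rw [← h2, Nat.choose_two_right, Nat.add_sub_cancel, Nat.two_mul_div_two_of_even, mul_comm]
  rw [mul_comm]
  exact Nat.even_mul_succ_self m

end Pool.Agent.H9.JD
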