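import Mathlib

/-!
# The symmetric square and its dual: the invariants `det`
-/

set_option autoImplicit false

open MvPolynomial Matrix

namespace Pool.Agent.H9.JD

private noncomputable def detPol {m n : ℕ} (T : (Fin n → ℝ) →ₗ[ℝ] Matrix (Fin m) (Fin m) ℝ) :
    MvPolynomial (Fin n) ℝ :=
  Matrix.det (Matrix.of fun a b => ∑ j, C (T (Pi.single j 1) a b) * X j)

private theorem eval_detPol {m n : ℕ} (T : (Fin n → ℝ) →ₗ[ℝ] Matrix (Fin m) (Fin m) ℝ)
    (y : Fin n → ℝ) : eval y (detPol T) = (T y).det := by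
  unfold detPol
  rw [RingHom.map_det]
  congr 1
  ext a b
  rw [RingHom.mapMatrix_apply, Matrix.map_apply, Matrix.of_apply, map_sum]
  have h1 : y = ∑ j, y j • (Pi.single j (1 : ℝ) : Fin n → ℝ) := by
    funext i
    rw [Finset.sum_apply, Finset.sum_eq_single i]
    · simp
    · intro j _ hj
      simp [Ne.symm hj]
    · intro h
      exact absurd (Finset.mem_univ i) h
  have h2 : T y = ∑ j, y j • T (Pi.single j (1 : ℝ)) := by
    conv_lhs => rw [h1]
    rw [map_sum]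
    exact Finset.sum_congr rfl fun j _ => map_smul _ _ _
  rw [h2, Matrix.sum_apply]
  refine Finset.sum_congr rfl fun j _ => ?_
  rw [Matrix.smul_apply, map_mul, eval_C, eval_X, smul_eq_mul, mul_comm]

private theorem detPol_homog {m n : ℕ} (T : (Fin n → ℝ) →ₗ[ℝ] Matrix (Fin m) (Fin m) ℝ) :
    (detPol T).IsHomogeneous m := by
  unfold detPol
  rw [Matrix.det_apply]
  refine IsHomogeneous.sum _ _ _ fun σ _ => ?_
  have h1 : (∏ i, (Matrix.of fun a b => ∑ j, C (T (Pi.single j 1) a b) * X j :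
      Matrix (Fin m) (Fin m) (MvPolynomial (Fin n) ℝ)) (σ i) i).IsHomogeneous m := by
    have h2 := IsHomogeneous.prod Finset.univ
      (fun i => (∑ j, C (T (Pi.single j 1) (σ i) i) * X j : MvPolynomial (Fin n) ℝ))
      (fun _ => 1) (fun i _ => IsHomogeneous.sum _ _ _ fun j _ => isHomogeneous_C_mul_X _ _)
    simpa using h2
  rcases Int.units_eq_one_or (Equiv.Perm.sign σ) with h | h
  · rw [h, one_smul]
    exact h1
  · rw [h, Units.neg_smul, one_smul]
    exact h1.neg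

private theorem detPol_ne_zero {m n : ℕ} (T : (Fin n → ℝ) →ₗ[ℝ] Matrix (Fin m) (Fin m) ℝ)
    (v : Fin n → ℝ) (hv : T v = 1) : detPol T ≠ 0 := by
  intro h
  have h1 := eval_detPol T v
  rw [h, map_zero, hv, Matrix.det_one] at h1
  exact zero_ne_one h1

/-- `p(v) = det (T v)`, `p = det (of fun a b => ∑ j, C (T e_j a b) * X j)` -/
theorem sym_inv {m n : ℕ} (ψ : SpecialLinearGroup (Fin m) ℝ →* SpecialLinearGroup (Fin n) ℝ)
    (T : (Fin n → ℝ) →ₗ[ℝ] Matrix (Fin m) (Fin m) ℝ) (hT : Function.Injective T)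
    (hr : ∀ M : Matrix (Fin m) (Fin m) ℝ, M.IsSymm ↔ ∃ v, T v = M)
    (hψ : ∀ (x : SpecialLinearGroup (Fin m) ℝ) (v : Fin n → ℝ),
      T ((ψ x : Matrix (Fin n) (Fin n) ℝ) *ᵥ v) =
        (x : Matrix (Fin m) (Fin m) ℝ) * T v * (x : Matrix (Fin m) (Fin m) ℝ)ᵀ) :
    ∃ p : MvPolynomial (Fin n) ℝ, p ≠ 0 ∧ p.IsHomogeneous m ∧
      ∀ (x : SpecialLinearGroup (Fin m) ℝ) (y : Fin n → ℝ),
        eval ((ψ x : Matrix (Fin n) (Fin n) ℝ) *ᵥ y) p = eval y p := by
  obtain ⟨v, hv⟩ := (hr 1).mp Matrix.isSymm_one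
  refine ⟨detPol T, detPol_ne_zero T v hv, detPol_homog T, fun x y => ?_⟩
  rw [eval_detPol, eval_detPol, hψ, Matrix.det_mul, Matrix.det_mul, Matrix.det_transpose, x.2,
    one_mul, mul_one]

private theorem eq_zero_of_trace {m : ℕ} (D : Matrix (Fin m) (Fin m) ℝ) (hD : D.IsSymm)
    (h : (D * D).trace = 0) : D = 0 := by
  have h1 : ∑ i, ∑ j, D i j * D i j = 0 := by
    rw [← h, Matrix.trace]
    refine Finset.sum_congr rfl fun i _ => ?_
    rw [Matrix.diag_apply, Matrix.mul_apply]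
    refine Finset.sum_congr rfl fun j _ => ?_
    rw [hD.apply i j]
  ext i j
  have h2 := (Finset.sum_eq_zero_iff_of_nonneg
    (fun i _ => Finset.sum_nonneg fun j _ => mul_self_nonneg (D i j))).mp h1 i (Finset.mem_univ i)
  have h3 := (Finset.sum_eq_zero_iff_of_nonneg
    (fun j _ => mul_self_nonneg (D i j))).mp h2 j (Finset.mem_univ j)
  exact mul_self_eq_zero.mp h3

/-- The dual: let `T' : ℝ^n → symmetric matrices` be given by `tr (T w * T' v) = w ⬝ᵥ v` for all `w`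
(the trace form is nondegenerate on the symmetric matrices: `tr (M * M) > 0` for `M ≠ 0`). Then
`T' ((ψ x)ᵀ *ᵥ v) = xᵀ * T' v * x`. Put `p(v) = det (T' v)`; `T'` is onto. -/
theorem sym_dual {m n : ℕ} (ψ : SpecialLinearGroup (Fin m) ℝ →* SpecialLinearGroup (Fin n) ℝ)
    (T : (Fin n → ℝ) →ₗ[ℝ] Matrix (Fin m) (Fin m) ℝ) (hT : Function.Injective T)
    (hr : ∀ M : Matrix (Fin m) (Fin m) ℝ, M.IsSymm ↔ ∃ v, T v = M)
    (hψ : ∀ (x : SpecialLinearGroup (Fin m) ℝ) (v : Fin n → ℝ),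
      T ((ψ x : Matrix (Fin n) (Fin n) ℝ) *ᵥ v) =
        (x : Matrix (Fin m) (Fin m) ℝ) * T v * (x : Matrix (Fin m) (Fin m) ℝ)ᵀ) :
    ∃ p : MvPolynomial (Fin n) ℝ, p ≠ 0 ∧ p.IsHomogeneous m ∧
      ∀ (x : SpecialLinearGroup (Fin m) ℝ) (y : Fin n → ℝ),
        eval ((ψ x : Matrix (Fin n) (Fin n) ℝ)ᵀ *ᵥ y) p = eval y p := by
  have hsym : ∀ v, (T v).IsSymm := fun v => (hr _).mpr ⟨v, rfl⟩
  -- the Gram map
  let Φ : (Fin n → ℝ) →ₗ[ℝ] (Fin n → ℝ) :=
    { toFun := fun u i => (T (Pi.single i 1) * T u).trace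
      map_add' := fun u v => by
        funext i
        simp [mul_add]
      map_smul' := fun c u => by
        funext i
        simp }
  have hΦ : ∀ u i, Φ u i = (T (Pi.single i 1) * T u).trace := fun u i => rfl
  have hform : ∀ w u, (T w * T u).trace = w ⬝ᵥ Φ u := by
    intro w u
    have h1 : w = ∑ j, w j • (Pi.single j (1 : ℝ) : Fin n → ℝ) := by
      funext i
      rw [Finset.sum_apply, Finset.sum_eq_single i]
      · simp
      · intro j _ hj
        simp [Ne.symm hj]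
      · intro h
        exact absurd (Finset.mem_univ i) h
    have h2 : T w = ∑ j, w j • T (Pi.single j (1 : ℝ)) := by
      conv_lhs => rw [h1]
      rw [map_sum]
      exact Finset.sum_congr rfl fun j _ => map_smul _ _ _
    rw [h2, Finset.sum_mul, Matrix.trace_sum]
    unfold dotProduct
    refine Finset.sum_congr rfl fun j _ => ?_
    rw [Matrix.smul_mul, Matrix.trace_smul, hΦ, smul_eq_mul]
  have hΦi : Function.Injective Φ := by
    rw [← LinearMap.ker_eq_bot, LinearMap.ker_eq_bot']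
    intro u hu
    have h1 := hform u u
    rw [hu, dotProduct_zero] at h1
    have h2 := eq_zero_of_trace _ (hsym u) h1
    exact hT (h2.trans (map_zero T).symm)
  let e : (Fin n → ℝ) ≃ₗ[ℝ] (Fin n → ℝ) := LinearEquiv.ofInjectiveEndo Φ hΦi
  have he : ∀ v, Φ (e.symm v) = v := fun v => e.apply_symm_apply v
  let T' : (Fin n → ℝ) →ₗ[ℝ] Matrix (Fin m) (Fin m) ℝ := T.comp e.symm.toLinearMap
  have hT' : ∀ v, T' v = T (e.symm v) := fun v => rfl
  have hpair : ∀ w v, (T w * T' v).trace = w ⬝ᵥ v := fun w v => by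
    rw [hT', hform, he]
  have heq : ∀ (x : SpecialLinearGroup (Fin m) ℝ) (v : Fin n → ℝ),
      T' ((ψ x : Matrix (Fin n) (Fin n) ℝ)ᵀ *ᵥ v) =
        (x : Matrix (Fin m) (Fin m) ℝ)ᵀ * T' v * (x : Matrix (Fin m) (Fin m) ℝ) := by
    intro x v
    set D := T' ((ψ x : Matrix (Fin n) (Fin n) ℝ)ᵀ *ᵥ v) -
        (x : Matrix (Fin m) (Fin m) ℝ)ᵀ * T' v * (x : Matrix (Fin m) (Fin m) ℝ) with hDdef
    have hv : (T' v).IsSymm := hsym _
    have hDs : D.IsSymm := by
      refine Matrix.IsSymm.sub (hsym _) ?_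
      unfold Matrix.IsSymm
      rw [Matrix.transpose_mul, Matrix.transpose_mul, Matrix.transpose_transpose, hv.eq,
        Matrix.mul_assoc]
    obtain ⟨w, hw⟩ := (hr D).mp hDs
    have h1 : (T w * D).trace = 0 := by
      rw [hDdef, mul_sub, Matrix.trace_sub, hpair, sub_eq_zero]
      have h2 : w ⬝ᵥ ((ψ x : Matrix (Fin n) (Fin n) ℝ)ᵀ *ᵥ v) =
          ((ψ x : Matrix (Fin n) (Fin n) ℝ) *ᵥ w) ⬝ᵥ v := by
        rw [Matrix.dotProduct_mulVec, Matrix.vecMul_transpose]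
      rw [h2, ← hpair, hψ]
      rw [Matrix.mul_assoc (x : Matrix (Fin m) (Fin m) ℝ) (T w), Matrix.mul_assoc,
        Matrix.trace_mul_comm]
      congr 1
      simp only [Matrix.mul_assoc]
    rw [hw] at h1
    exact sub_eq_zero.mp (eq_zero_of_trace D hDs h1)
  obtain ⟨v, hv⟩ := (hr 1).mp Matrix.isSymm_one
  refine ⟨detPol T', detPol_ne_zero T' (e v) ?_, detPol_homog T', fun x y => ?_⟩
  · rw [hT', e.symm_apply_apply, hv]
  · rw [eval_detPol, eval_detPol, heq, Matrix.det_mul, Matrix.det_mul, Matrix.det_transpose, x.2,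
      one_mul, mul_one]

end Pool.Agent.H9.JD
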