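import Mathlib
import Pool.Agent.H9.JD.Main2
import Pool.Agent.H9.JD.Cr
import Pool.Agent.H9.JD.SyA
import Pool.Agent.H9.JD.SyB

/-!
# All relative invariants: dimension at least `m²`, and the symmetric square
-/

set_option autoImplicit false

open MvPolynomial Matrix

namespace Pool.Agent.H9.JD

/-- `d` vectors, weight `k`, invariant under the transposes -/
def RelD {m n : ℕ} (ψ : SpecialLinearGroup (Fin m) ℝ →* SpecialLinearGroup (Fin n) ℝ) (d : ℕ) :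
    Prop :=
  ∃ (k : ℕ) (P : MvPolynomial (Fin n × Fin d) ℝ), 0 < k ∧ P ≠ 0 ∧
    (∀ (B : Matrix (Fin d) (Fin d) ℝ) (v : Matrix (Fin n) (Fin d) ℝ),
      val (v * B) P = B.det ^ k * val v P) ∧
    ∀ (x : SpecialLinearGroup (Fin m) ℝ) (v : Matrix (Fin n) (Fin d) ℝ),
      val ((ψ x : Matrix (Fin n) (Fin n) ℝ)ᵀ * v) P = val v P

theorem rel_of_large {m n : ℕ}
    (ψ : SpecialLinearGroup (Fin m) ℝ →* SpecialLinearGroup (Fin n) ℝ)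
    (F : Fin n → Fin n → MvPolynomial (Fin m × Fin m) ℝ)
    (hF : ∀ (x : SpecialLinearGroup (Fin m) ℝ) (i j : Fin n),
      (ψ x : Matrix (Fin n) (Fin n) ℝ) i j =
        eval (fun p => (x : Matrix (Fin m) (Fin m) ℝ) p.1 p.2) (F i j))
    (hm : 0 < m) (hmn : m ^ 2 ≤ n) {d : ℕ} (hd : 0 < d) (hdn : d < n) : RelD ψ d := by
  refine inv_of_dim ψ F hF hm hd ?_
  obtain ⟨e, rfl⟩ : ∃ e, n = d + e := ⟨n - d, by omega⟩
  obtain ⟨a, rfl⟩ : ∃ a, d = a + 1 := ⟨d - 1, by omega⟩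
  obtain ⟨b, rfl⟩ : ∃ b, e = b + 1 := ⟨e - 1, by omega⟩
  have h : 0 ≤ a * b := Nat.zero_le _
  nlinarith

theorem rel_of_two {m n : ℕ}
    (ψ : SpecialLinearGroup (Fin m) ℝ →* SpecialLinearGroup (Fin n) ℝ)
    (F : Fin n → Fin n → MvPolynomial (Fin m × Fin m) ℝ)
    (hF : ∀ (x : SpecialLinearGroup (Fin m) ℝ) (i j : Fin n),
      (ψ x : Matrix (Fin n) (Fin n) ℝ) i j =
        eval (fun p => (x : Matrix (Fin m) (Fin m) ℝ) p.1 p.2) (F i j))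
    (hm : 0 < m) (hmn : n ≤ 3 ∨ m ^ 2 + 3 ≤ 2 * n)
    (h1 : ∃ (k : ℕ) (p : MvPolynomial (Fin n) ℝ), 0 < k ∧ p ≠ 0 ∧ p.IsHomogeneous k ∧
      ∀ (x : SpecialLinearGroup (Fin m) ℝ) (y : Fin n → ℝ),
        eval ((ψ x : Matrix (Fin n) (Fin n) ℝ) *ᵥ y) p = eval y p)
    (h2 : ∃ (k : ℕ) (p : MvPolynomial (Fin n) ℝ), 0 < k ∧ p ≠ 0 ∧ p.IsHomogeneous k ∧
      ∀ (x : SpecialLinearGroup (Fin m) ℝ) (y : Fin n → ℝ),
        eval ((ψ x : Matrix (Fin n) (Fin n) ℝ)ᵀ *ᵥ y) p = eval y p)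
    {d : ℕ} (hd : 0 < d) (hdn : d < n) : RelD ψ d := by
  by_cases hd1 : d = 1
  · subst hd1
    obtain ⟨k, p, hk, hp0, hp, hi⟩ := h2
    obtain ⟨P, hP0, hP1, hP2⟩ := one_of_pol p hp0 hp
      (fun x : SpecialLinearGroup (Fin m) ℝ => (ψ x : Matrix (Fin n) (Fin n) ℝ)ᵀ) hi
    exact ⟨k, P, hk, hP0, hP1, hP2⟩
  by_cases hd2 : d + 1 = n
  · subst hd2
    obtain ⟨k, p, hk, hp0, hp, hi⟩ := h1
    obtain ⟨P, hP0, hP1, hP2⟩ := top_of_dual hk p hp0 hp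
      (fun x : SpecialLinearGroup (Fin m) ℝ => (ψ x : Matrix (Fin (d + 1)) (Fin (d + 1)) ℝ)ᵀ)
      (fun x => by rw [Matrix.det_transpose]; exact (ψ x).2)
      (fun x y => by rw [Matrix.transpose_transpose]; exact hi x y)
    exact ⟨k, P, hk, hP0, hP1, hP2⟩
  refine inv_of_dim ψ F hF hm hd ?_
  have hmn' : m ^ 2 + 3 ≤ 2 * n := by
    rcases hmn with h | h
    · omega
    · exact h
  obtain ⟨e, rfl⟩ : ∃ e, n = d + e := ⟨n - d, by omega⟩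
  obtain ⟨a, rfl⟩ : ∃ a, d = a + 2 := ⟨d - 2, by omega⟩
  obtain ⟨b, rfl⟩ : ∃ b, e = b + 2 := ⟨e - 2, by omega⟩
  have h : 0 ≤ a * b := Nat.zero_le _
  nlinarith

theorem rel_of_sym {m n : ℕ} (ψ : SpecialLinearGroup (Fin m) ℝ →* SpecialLinearGroup (Fin n) ℝ)
    (T : (Fin n → ℝ) →ₗ[ℝ] Matrix (Fin m) (Fin m) ℝ) (hT : Function.Injective T)
    (hr : ∀ M : Matrix (Fin m) (Fin m) ℝ, M.IsSymm ↔ ∃ v, T v = M)
    (hψ : ∀ (x : SpecialLinearGroup (Fin m) ℝ) (v : Fin n → ℝ),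
      T ((ψ x : Matrix (Fin n) (Fin n) ℝ) *ᵥ v) =
        (x : Matrix (Fin m) (Fin m) ℝ) * T v * (x : Matrix (Fin m) (Fin m) ℝ)ᵀ)
    {d : ℕ} (hd : 0 < d) (hdn : d < n) : RelD ψ d := by
  obtain ⟨F, hF⟩ := sym_poly ψ T hT hr hψ
  have hn := sym_dim T hT hr
  have hm : 0 < m := by
    rcases Nat.eq_zero_or_pos m with h | h
    · subst h; omega
    · exact h
  obtain ⟨p, hp0, hp, hpi⟩ := sym_inv ψ T hT hr hψ
  obtain ⟨q, hq0, hq, hqi⟩ := sym_dual ψ T hT hr hψ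
  refine rel_of_two ψ F hF hm ?_ ⟨m, p, hm, hp0, hp, hpi⟩ ⟨m, q, hm, hq0, hq, hqi⟩ hd hdn
  by_cases h3 : 3 ≤ m
  · right
    nlinarith
  · left
    interval_cases m <;> omega

end Pool.Agent.H9.JD
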