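import Mathlib
import Pool.Agent.H9.IQ.Sub
import Pool.Agent.H9.JD.Dep
import Pool.Agent.H9.JD.Desc

/-!
# A nonconstant invariant rational function
-/

set_option autoImplicit false

open MvPolynomial Matrix

namespace Pool.Agent.H9.JD

open Pool.Agent.H9.IQ (lsub)

theorem lsub_one' {ι : Type} [Fintype ι] [DecidableEq ι] (p : MvPolynomial ι ℝ) :
    lsub (1 : Matrix ι ι ℝ) p = p :=
  Pool.Agent.H9.IQ.lsub_eq_of_eval 1 p fun x => by rw [Matrix.one_mulVec]

/-- linear substitution as a ring homomorphism -/
noncomputable def subHom {ι : Type} [Fintype ι] (A : Matrix ι ι ℝ) :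
    MvPolynomial ι ℝ →+* MvPolynomial ι ℝ :=
  (aeval (fun i => ∑ j, C (A i j) * X j) : MvPolynomial ι ℝ →ₐ[ℝ] MvPolynomial ι ℝ).toRingHom

theorem subHom_apply {ι : Type} [Fintype ι] (A : Matrix ι ι ℝ) (p : MvPolynomial ι ℝ) :
    subHom A p = lsub A p := rfl

theorem subHom_injective {ι S : Type} [Fintype ι] [DecidableEq ι] [Group S]
    (ρ : S →* Matrix ι ι ℝ) (g : S) : Function.Injective (subHom (ρ g)) := by
  intro a b h
  rw [subHom_apply, subHom_apply] at h
  have h1 : ∀ c : MvPolynomial ι ℝ, lsub (ρ g⁻¹) (lsub (ρ g) c) = c := by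
    intro c
    rw [← Pool.Agent.H9.IQ.lsub_mul, ← map_mul, mul_inv_cancel, map_one, lsub_one']
  rw [← h1 a, h, h1 b]

/-- A group acts linearly on `ℝ^ι`; the matrix entries are polynomials in `|σ| ≤ |ι|` parameters
which satisfy a relation `δ = 1`. Then there is a nonconstant invariant rational function `p / q`.

Proof. `K = FractionRing (MvPolynomial ι ℝ)`; `y s i` = image of `∑ j, C (ρ s i j) * X j`;
`F i = ∑ j, map (algebraMap ℝ K) (R i j) * C (X j)` in `MvPolynomial σ K`; by `dep` there is `Q ≠ 0`
with `map δ - 1 ∣ aeval F Q`, so `eval (y s) Q = 0` for all `s` (evaluate at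
`algebraMap ∘ pt s`). `σ g : K →+* K` = extension of `lsub (ρ g)` to the fraction field
(`lsub (ρ g)` is injective, inverse `lsub (ρ g⁻¹)`; `IsFractionRing.map` or `IsLocalization.map`);
`σ g (y s i) = y (s * g) i`. By `descent` there is `P ≠ 0` with coefficients fixed by all `σ g` and
`eval (y 1) P = 0`, i.e. `eval (fun i => algebraMap (X i)) P = 0`. If all coefficients of `P` were
constants (in the image of `ℝ`), then `P = map _ P₀`, `P₀ = 0`, contradiction. So some coefficient
`f` is fixed by all `σ g` and not a constant; `f = p / q`. -/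
theorem rational {ι σ S : Type} [Fintype ι] [DecidableEq ι] [Fintype σ] [Group S]
    (ρ : S →* Matrix ι ι ℝ) (R : ι → ι → MvPolynomial σ ℝ) (pt : S → σ → ℝ)
    (hR : ∀ s i j, eval (pt s) (R i j) = ρ s i j) (δ : MvPolynomial σ ℝ) (hδ : δ ≠ 1)
    (hδ1 : ∀ s, eval (pt s) δ = 1) (hc : Fintype.card σ ≤ Fintype.card ι) :
    ∃ p q : MvPolynomial ι ℝ, q ≠ 0 ∧ (∀ g, p * lsub (ρ g) q = lsub (ρ g) p * q) ∧
      ∀ a : ℝ, p ≠ C a * q := by
  classical
  let K := FractionRing (MvPolynomial ι ℝ)
  let am : MvPolynomial ι ℝ →+* K := algebraMap (MvPolynomial ι ℝ) K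
  have ham : Function.Injective am := IsFractionRing.injective (MvPolynomial ι ℝ) K
  have hC : ∀ a : ℝ, algebraMap ℝ K a = am (C a) := fun a =>
    IsScalarTower.algebraMap_apply ℝ (MvPolynomial ι ℝ) K a
  have hle : ∀ g : S, nonZeroDivisors (MvPolynomial ι ℝ) ≤
      (nonZeroDivisors (MvPolynomial ι ℝ)).comap (subHom (ρ g)) := fun g =>
    nonZeroDivisors_le_comap_nonZeroDivisors_of_injective _ (subHom_injective ρ g)
  let τ : S → K →+* K := fun g => IsLocalization.map K (subHom (ρ g)) (hle g)
  have hτ : ∀ g p, τ g (am p) = am (lsub (ρ g) p) := fun g p => by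
    rw [← subHom_apply]
    exact IsLocalization.map_eq (hle g) p
  let y : S → ι → K := fun s i => am (lsub (ρ s) (X i))
  have hy : ∀ g s i, τ g (y s i) = y (s * g) i := by
    intro g s i
    change τ g (am _) = am _
    rw [hτ, ← Pool.Agent.H9.IQ.lsub_mul, ← map_mul]
  -- the relation
  let F : ι → MvPolynomial σ K := fun i =>
    ∑ j, MvPolynomial.map (algebraMap ℝ K) (R i j) * C (am (X j))
  have hδ' : MvPolynomial.map (algebraMap ℝ K) δ ≠ 1 := by
    intro h
    apply hδ
    apply MvPolynomial.map_injective (algebraMap ℝ K) (algebraMap ℝ K).injective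
    rw [h, map_one]
  obtain ⟨Q, hQ, hdvd⟩ := dep hc F (MvPolynomial.map (algebraMap ℝ K) δ) hδ'
  have hev : ∀ s, eval (y s) Q = 0 := by
    intro s
    let e : MvPolynomial σ K →+* K := eval (fun i => algebraMap ℝ K (pt s i))
    have he : ∀ p : MvPolynomial σ ℝ, e (MvPolynomial.map (algebraMap ℝ K) p) =
        algebraMap ℝ K (eval (pt s) p) := by
      intro p
      change eval _ (MvPolynomial.map _ p) = _
      rw [MvPolynomial.eval_map, MvPolynomial.eval₂_eq', MvPolynomial.eval_eq', map_sum]
      refine Finset.sum_congr rfl fun d _ => ?_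
      rw [map_mul, map_prod]
      congr 1
      refine Finset.prod_congr rfl fun i _ => ?_
      rw [map_pow]
    have heF : ∀ i, e (F i) = y s i := by
      intro i
      change e (∑ j, _) = am (lsub (ρ s) (X i))
      rw [map_sum]
      unfold Pool.Agent.H9.IQ.lsub
      rw [aeval_X, map_sum]
      refine Finset.sum_congr rfl fun j _ => ?_
      rw [map_mul, he, hR, map_mul, hC]
      congr 1
      exact eval_C _
    obtain ⟨T, hT⟩ := hdvd
    have h1 : e (aeval F Q) = 0 := by
      rw [hT, map_mul, map_sub, map_one, he, hδ1, map_one, sub_self, zero_mul]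
    have h2 : e (aeval F Q) = eval (y s) Q := by
      rw [aeval_def, MvPolynomial.algebraMap_eq, MvPolynomial.eval₂_eq', map_sum,
        MvPolynomial.eval_eq']
      refine Finset.sum_congr rfl fun d _ => ?_
      rw [map_mul, map_prod]
      congr 1
      · exact eval_C _
      · refine Finset.prod_congr rfl fun i _ => ?_
        rw [map_pow, heF]
    rw [← h2, h1]
  obtain ⟨P, hP, hPv, hPs⟩ := descent τ y hy Q hQ hev
  -- some coefficient is not constant
  have hex : ∃ a, ∀ c : ℝ, algebraMap ℝ K c ≠ coeff a P := by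
    by_contra hcon
    push Not at hcon
    choose c hc' using hcon
    have h1 := hPv 1
    have hy1 : ∀ i, y 1 i = am (X i) := by
      intro i
      change am (lsub (ρ 1) (X i)) = _
      rw [map_one, lsub_one']
    let P₀ : MvPolynomial ι ℝ := ∑ d ∈ P.support, monomial d (c d)
    have h2 : eval (y 1) P = am P₀ := by
      rw [MvPolynomial.eval_eq', map_sum]
      refine Finset.sum_congr rfl fun d _ => ?_
      rw [← hc' d, hC, MvPolynomial.monomial_eq, map_mul, Finsupp.prod_fintype _ _ (by simp),
        map_prod]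
      congr 1
      refine Finset.prod_congr rfl fun i _ => ?_
      rw [hy1, map_pow]
    have h3 : P₀ = 0 := by
      apply ham
      rw [← h2, h1, map_zero]
    apply hP
    ext d
    rw [coeff_zero]
    by_cases hd : d ∈ P.support
    · have h4 : coeff d P₀ = c d := by
        change coeff d (∑ d ∈ P.support, monomial d (c d)) = _
        rw [coeff_sum, Finset.sum_eq_single d]
        · rw [coeff_monomial, if_pos rfl]
        · intro b _ hb
          rw [coeff_monomial, if_neg hb]
        · intro h; exact absurd hd h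
      rw [← hc' d, ← h4, h3, coeff_zero, map_zero]
    · rwa [MvPolynomial.notMem_support_iff] at hd
  obtain ⟨a, ha⟩ := hex
  obtain ⟨p, q, hq, hpq⟩ := IsFractionRing.div_surjective (A := MvPolynomial ι ℝ) (coeff a P)
  have hq0 : q ≠ 0 := nonZeroDivisors.ne_zero hq
  have hqK : am q ≠ 0 := fun h => hq0 (ham (by rw [h, map_zero]))
  refine ⟨p, q, hq0, fun g => ?_, fun c hpc => ?_⟩
  · have h1 := hPs g a
    rw [← hpq] at h1
    change τ g (am p / am q) = am p / am q at h1
    rw [map_div₀, hτ, hτ] at h1
    have hgq : am (lsub (ρ g) q) ≠ 0 := by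
      intro h
      apply hq0
      apply subHom_injective ρ g
      rw [subHom_apply, map_zero]
      apply ham
      rw [h, map_zero]
    rw [div_eq_div_iff hgq hqK] at h1
    apply ham
    rw [map_mul, map_mul]
    exact h1.symm
  · apply ha c
    rw [← hpq, hC]
    change _ = am p / am q
    rw [hpc, map_mul, mul_div_assoc, div_self hqK, mul_one]

end Pool.Agent.H9.JD
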