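import Mathlib
import Pool.Agent.H9.JD.Rat
import Pool.Agent.H9.JD.Ufd
import Pool.Agent.H9.JD.Chr
import Pool.Agent.H9.JD.Wt

/-!
# Polynomial representations of dimension `n > m²` have all relative invariants
-/

set_option autoImplicit false

open MvPolynomial Matrix

namespace Pool.Agent.H9.JD

open Pool.Agent.H9.IQ (lsub eval_lsub)

/-- the matrix -/
def mt {n : ℕ} (x : SpecialLinearGroup (Fin n) ℝ) : Matrix (Fin n) (Fin n) ℝ := x

theorem mt_one {n : ℕ} : mt (1 : SpecialLinearGroup (Fin n) ℝ) = 1 := rfl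

theorem mt_mul {n : ℕ} (x y : SpecialLinearGroup (Fin n) ℝ) : mt (x * y) = mt x * mt y := rfl

/-- the action `v ↦ ψ(x⁻¹)ᵀ v Bᵀ` on `n × d` matrices -/
noncomputable def rep {m n d : ℕ}
    (ψ : SpecialLinearGroup (Fin m) ℝ →* SpecialLinearGroup (Fin n) ℝ) :
    SpecialLinearGroup (Fin m) ℝ × SpecialLinearGroup (Fin d) ℝ →*
      Matrix (Fin n × Fin d) (Fin n × Fin d) ℝ where
  toFun s := Matrix.of fun p q => mt (ψ s.1⁻¹) q.1 p.1 * mt s.2 p.2 q.2
  map_one' := by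
    ext p q
    show mt (ψ (1 : SpecialLinearGroup (Fin m) ℝ)⁻¹) q.1 p.1 *
      mt (1 : SpecialLinearGroup (Fin d) ℝ) p.2 q.2 = _
    rw [inv_one, map_one, mt_one, mt_one, Matrix.one_apply, Matrix.one_apply, Matrix.one_apply]
    by_cases h : p = q
    · subst h; simp
    · rw [if_neg h]
      by_cases h1 : q.1 = p.1
      · have h2 : ¬ p.2 = q.2 := fun h2 => h (Prod.ext h1.symm h2)
        rw [if_neg h2, mul_zero]
      · rw [if_neg h1, zero_mul]
  map_mul' s t := by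
    ext p q
    rw [Matrix.mul_apply]
    show mt (ψ (s.1 * t.1)⁻¹) q.1 p.1 * mt (s.2 * t.2) p.2 q.2 =
      ∑ j : Fin n × Fin d, (mt (ψ s.1⁻¹) j.1 p.1 * mt s.2 p.2 j.2) *
        (mt (ψ t.1⁻¹) q.1 j.1 * mt t.2 j.2 q.2)
    rw [_root_.mul_inv_rev, map_mul, mt_mul, mt_mul,
      Matrix.mul_apply, Matrix.mul_apply, Finset.sum_mul_sum, Fintype.sum_prod_type]
    refine Finset.sum_congr rfl fun a _ => Finset.sum_congr rfl fun b _ => ?_
    ring

theorem rep_mulVec {m n d : ℕ}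
    (ψ : SpecialLinearGroup (Fin m) ℝ →* SpecialLinearGroup (Fin n) ℝ)
    (s : SpecialLinearGroup (Fin m) ℝ × SpecialLinearGroup (Fin d) ℝ)
    (v : Matrix (Fin n) (Fin d) ℝ) :
    rep ψ s *ᵥ (fun q => v q.1 q.2) =
      fun q => ((mt (ψ s.1⁻¹))ᵀ * v * (mt s.2)ᵀ) q.1 q.2 := by
  funext p
  rw [Matrix.mul_apply, Matrix.mulVec, dotProduct, Fintype.sum_prod_type, Finset.sum_comm]
  refine Finset.sum_congr rfl fun b _ => ?_
  rw [Matrix.mul_apply, Finset.sum_mul]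
  refine Finset.sum_congr rfl fun a _ => ?_
  show mt (ψ s.1⁻¹) a p.1 * mt s.2 p.2 b * v a b = mt (ψ s.1⁻¹) a p.1 * v a b * mt s.2 p.2 b
  ring

theorem all_invariants {m n : ℕ}
    (ψ : SpecialLinearGroup (Fin m) ℝ →* SpecialLinearGroup (Fin n) ℝ)
    (F : Fin n → Fin n → MvPolynomial (Fin m × Fin m) ℝ)
    (hF : ∀ (x : SpecialLinearGroup (Fin m) ℝ) (i j : Fin n),
      (ψ x : Matrix (Fin n) (Fin n) ℝ) i j =
        eval (fun p => (x : Matrix (Fin m) (Fin m) ℝ) p.1 p.2) (F i j))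
    (hmn : m ^ 2 < n) {d : ℕ} (hd : 0 < d) (hdn : d < n) :
    ∃ (k : ℕ) (P : MvPolynomial (Fin n × Fin d) ℝ), 0 < k ∧ P ≠ 0 ∧
      (∀ (B : Matrix (Fin d) (Fin d) ℝ) (v : Matrix (Fin n) (Fin d) ℝ),
        val (v * B) P = B.det ^ k * val v P) ∧
      ∀ (x : SpecialLinearGroup (Fin m) ℝ) (v : Matrix (Fin n) (Fin d) ℝ),
        val ((ψ x : Matrix (Fin n) (Fin n) ℝ)ᵀ * v) P = val v P := by
  classical
  -- the parameters
  let σ : Type := (Fin m × Fin m) ⊕ (Fin d × Fin d)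
  let R : (Fin n × Fin d) → (Fin n × Fin d) → MvPolynomial σ ℝ := fun p q =>
    rename Sum.inl (F q.1 p.1) * X (Sum.inr (p.2, q.2))
  let pt : SpecialLinearGroup (Fin m) ℝ × SpecialLinearGroup (Fin d) ℝ → σ → ℝ := fun s =>
    Sum.elim (fun p => ((s.1⁻¹ : SpecialLinearGroup (Fin m) ℝ) : Matrix (Fin m) (Fin m) ℝ) p.1 p.2)
      (fun p => (s.2 : Matrix (Fin d) (Fin d) ℝ) p.1 p.2)
  let δ : MvPolynomial σ ℝ :=
    (Matrix.of fun i j : Fin d => (X (Sum.inr (i, j)) : MvPolynomial σ ℝ)).det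
  have hδe : ∀ y : σ → ℝ, eval y δ = (Matrix.of fun i j : Fin d => y (Sum.inr (i, j))).det := by
    intro y
    show eval y (Matrix.det _) = _
    rw [RingHom.map_det]
    congr 1
    ext i j
    simp
  have hR : ∀ s p q, eval (pt s) (R p q) = rep ψ s p q := by
    intro s p q
    show eval (pt s) (rename Sum.inl (F q.1 p.1) * X (Sum.inr (p.2, q.2))) =
      mt (ψ s.1⁻¹) q.1 p.1 * mt s.2 p.2 q.2
    unfold mt
    rw [map_mul, eval_rename, eval_X, hF]
    rfl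
  have hδ : δ ≠ 1 := by
    intro h
    have h1 := hδe 0
    rw [h, map_one] at h1
    have : Nonempty (Fin d) := ⟨⟨0, hd⟩⟩
    have h2 : (Matrix.of fun i j : Fin d => (0 : σ → ℝ) (Sum.inr (i, j))) = 0 := by
      ext i j; rfl
    rw [h2, Matrix.det_zero] at h1
    exact one_ne_zero h1
  have hδ1 : ∀ s, eval (pt s) δ = 1 := by
    intro s
    rw [hδe]
    have h2 : (Matrix.of fun i j : Fin d => pt s (Sum.inr (i, j))) =
        (s.2 : Matrix (Fin d) (Fin d) ℝ) := by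
      ext i j; rfl
    rw [h2]
    exact s.2.2
  have hc : Fintype.card σ ≤ Fintype.card (Fin n × Fin d) := by
    show Fintype.card ((Fin m × Fin m) ⊕ (Fin d × Fin d)) ≤ _
    simp only [Fintype.card_sum, Fintype.card_prod, Fintype.card_fin]
    obtain ⟨e, rfl⟩ : ∃ e, n = d + e := ⟨n - d, by omega⟩
    have he : 0 < e := by omega
    nlinarith [Nat.mul_le_mul hd he, Nat.mul_le_mul_left d he, mul_comm d e,
      Nat.mul_le_mul (Nat.sub_le_sub_right hd 0) he]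
  obtain ⟨p, q, hq, hpq, hne⟩ := rational (rep ψ) R pt hR δ hδ hδ1 hc
  obtain ⟨f, hf, hfc⟩ := invariant_of_rational (rep ψ) (fun c s => no_char_prod c s) p q hq hpq hne
  have hinv : ∀ (s : SpecialLinearGroup (Fin m) ℝ × SpecialLinearGroup (Fin d) ℝ)
      (v : Matrix (Fin n) (Fin d) ℝ),
      val ((mt (ψ s.1⁻¹))ᵀ * v * (mt s.2)ᵀ) f = val v f := by
    intro s v
    have h1 := eval_lsub (rep ψ s) f (fun q => v q.1 q.2)
    rw [hf s, rep_mulVec] at h1
    exact h1.symm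
  refine weight_of_invariant hd (fun x : SpecialLinearGroup (Fin m) ℝ =>
    (ψ x : Matrix (Fin n) (Fin n) ℝ)ᵀ) f hfc ?_ ?_
  · intro x v
    have h1 := hinv (x⁻¹, 1) v
    rw [show ((x⁻¹, 1) : SpecialLinearGroup (Fin m) ℝ × SpecialLinearGroup (Fin d) ℝ).1⁻¹ = x from
      inv_inv x, show ((x⁻¹, 1) : SpecialLinearGroup (Fin m) ℝ × SpecialLinearGroup (Fin d) ℝ).2 = 1
      from rfl, mt_one, Matrix.transpose_one, Matrix.mul_one] at h1
    exact h1
  · intro B v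
    have h1 := hinv (1, ⟨(B : Matrix (Fin d) (Fin d) ℝ)ᵀ, by
      rw [Matrix.det_transpose]; exact B.2⟩) v
    rw [show (((1 : SpecialLinearGroup (Fin m) ℝ), (⟨(B : Matrix (Fin d) (Fin d) ℝ)ᵀ, by
      rw [Matrix.det_transpose]; exact B.2⟩ : SpecialLinearGroup (Fin d) ℝ))).1⁻¹ = 1 from
      inv_one, map_one, mt_one, Matrix.transpose_one, Matrix.one_mul] at h1
    exact h1

end Pool.Agent.H9.JD
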